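import Pool.Agent.Lib.MP_10e784_agBG.GDefs
import Pool.Agent.Lib.MP_10e784_agBS.S4

/-!
# LEAF GA: one product of curves, the classes modulo `L` (copy of `MP_10e784_agBS/S4` with `g` curves)

PROOF.  As `fixed_curve` of `MP_10e784_agBS/S4`.  For `p ∈ T` and every `l` the number `L` kills `Pt (ZMod p) (A l) (B l)` (`S4_kill`, private there: copy it), so
`rd p (r l i + L • Q) = rd p (r l i)` (`S4_class`, copy).  A point `P` gives the classes `i : Fin g → Fin n` (`choose` from `hr l (P l)`), and `(c mod p) ∈ R p (fun l => rd p (r l (i l)))`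
for all `p ∈ T`.  `VM_union` with the index `Fin (n ^ g)` (`finFunctionFinEquiv : (Fin g → Fin n) ≃ Fin (n ^ g)`), `b = 1`; each set has at most `(4 H) ^ N (1 - κ) ^ |T|` elements by `box_crt`
(all `h i = H`, `f p b = 1` if `b ∈ R p ..`, else `0`) exactly as in S4.
-/

set_option autoImplicit false

namespace MWS

open Finset

private theorem GA_kill {p : ℕ} [Fact p.Prime] {α β : ℤ} (hp2 : p ≠ 2) (hd : ¬ (p : ℤ) ∣ dsc α β) {L : ℕ}
    (hn : na α β p + 1 ∣ L) (P : Pt (ZMod p) α β) : L • P = 0 := by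
  have h1 : Nat.card (Pt (ZMod p) α β) = na α β p + 1 := by
    rw [Nat.card_congr (RD_equiv hp2 hd), Finite.card_option]
    rfl
  obtain ⟨k, rfl⟩ := hn
  rw [mul_comm, mul_smul, ← h1, card_nsmul_eq_zero', smul_zero]

private theorem GA_class {p : ℕ} (hp : p.Prime) {A B : ℤ} (hp2 : p ≠ 2) (hd : ¬ (p : ℤ) ∣ dsc A B) {L : ℕ}
    (hn : na A B p + 1 ∣ L) (P Q : Pt ℚ A B) : rd p (P + L • Q) = rd p P := by
  have : Fact p.Prime := ⟨hp⟩
  exact rd_class hp2 hd L (GA_kill hp2 hd hn) P Q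

theorem fixedG {ι : Type} [Fintype ι] [DecidableEq ι] {g : ℕ} {A B : Fin g → ℤ} {κ : ℝ} (h0 : 0 ≤ κ) (h1 : κ ≤ 1)
    {R : (p : ℕ) → (Fin g → Option (ZMod p × ZMod p)) → Set (ι → ZMod p)} (hR : DensG R κ) {L n : ℕ}
    (r : (l : Fin g) → Fin n → Pt ℚ (A l) (B l))
    (hr : ∀ l, ∀ P : Pt ℚ (A l) (B l), ∃ i, ∃ Q : Pt ℚ (A l) (B l), P = r l i + L • Q) (T : Finset ℕ)
    (hT : ∀ p ∈ T, p.Prime ∧ 11 ≤ p ∧ ∀ l, ¬ (p : ℤ) ∣ dsc (A l) (B l) ∧ na (A l) (B l) p + 1 ∣ L) {H : ℕ}
    (hq : ∏ p ∈ T, p ≤ H) :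
    (Nat.card {c : ι → ℤ // (∀ i, |c i| ≤ (H : ℤ)) ∧ ∃ P : (l : Fin g) → Pt ℚ (A l) (B l), AdmG R c P} : ℝ) ≤
      (n : ℝ) ^ g * ((4 * (H : ℝ)) ^ Fintype.card ι * (1 - κ) ^ T.card) := by
  classical
  have hU := VM_union (ι := ι) (H := H) (N := n ^ g)
    (fun c => ∃ P : (l : Fin g) → Pt ℚ (A l) (B l), AdmG R c P)
    (fun i c => ∀ p ∈ T, (fun j => ((c j : ℤ) : ZMod p)) ∈
      R p (fun l => rd p (r l ((finFunctionFinEquiv.symm i : Fin g → Fin n) l))))
    (by
      rintro c - ⟨P, hP⟩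
      choose i Q hi using fun l => hr l (P l)
      refine ⟨finFunctionFinEquiv i, fun p hp => ?_⟩
      obtain ⟨g1, g2, g3⟩ := hT p hp
      have h6 := hP p g1 g2 (fun l => (g3 l).1)
      have h7 : (fun l => rd p (P l)) = fun l => rd p (r l (i l)) := by
        funext l
        rw [hi l, GA_class g1 (by omega) (g3 l).1 (g3 l).2]
      rw [h7] at h6
      rw [Equiv.symm_apply_apply]
      exact h6)
    1 ((4 * (H : ℝ)) ^ Fintype.card ι * (1 - κ) ^ T.card) zero_le_one
    (fun i => by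
      rw [mul_one, VM_card]
      have hb := box_crt (ι := ι) T (fun p hp => (hT p hp).1) (fun _ => H) (fun _ => hq)
        (fun p b => if b ∈ R p (fun l => rd p (r l ((finFunctionFinEquiv.symm i : Fin g → Fin n) l)))
          then (1 : ℝ) else 0)
        (fun p b => by split_ifs <;> norm_num) (fun _ => 1 - κ)
        (fun p hp hne => by
          have h3 := hR p (hT p hp).1 (hT p hp).2.1
            (fun l => rd p (r l ((finFunctionFinEquiv.symm i : Fin g → Fin n) l)))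
          rw [sum_boole]
          refine le_trans (le_of_eq ?_) h3
          rw [Nat.card_eq_fintype_card, Fintype.card_subtype])
      rw [prod_const, prod_const, card_univ] at hb
      refine le_trans (le_of_eq ?_) hb
      rw [card_filter]
      push_cast
      refine sum_congr rfl fun c _ => ?_
      rw [prod_boole])
  rw [mul_one, Nat.cast_pow] at hU
  exact hU

end MWS
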