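import Pool.Agent.Lib.MP_10e784_agBS.S3

/-!
# LEAF GB: the sum over all `g`-tuples of curves (as `MP_10e784_agBS/S5`, needs only `box_crt`)

PROOF.  As `sum_curves` of `MP_10e784_agBS/S5`, with `ι = Fin g × Fin 2`, `h (l, 0) = H ^ 2`, `h (l, 1) = H ^ 3`; `f p b = 1 - κ` if `(b (l, 0), b (l, 1)) ∈ G p` for all `l`, else `1`;
`∑_b f p b = p ^ (2 g) - κ (#(G p)) ^ g ≤ (1 - κ (γ p) ^ g) p ^ (2 g)` (the functions `b` correspond to the maps `Fin g → ZMod p × ZMod p`; the set of those with all values in `G p` has `(#(G p)) ^ g` elements: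
`Fintype.card_piFinset_const` or `Nat.card_pi`; `γ p ≥ 0` for the `g`-th power of the inequality `γ p p² ≤ #(G p)`), and `∏ (1 - κ γ^g) ≤ exp (-κ ∑ γ^g)`, `∏ (4 h) = (16 H⁵) ^ g`.
The bijection of `Fintype.piFinset (fun _ : Fin g => Icc × Icc)` with the `piFinset` of the box over `Fin g × Fin 2`: `z ↦ fun t => ![(z t.1).1, (z t.1).2] t.2`, inverse `c ↦ fun l => (c (l, 0), c (l, 1))`
(`Finset.sum_nbij'`; or first `Equiv.curry` / `Fintype.piFinset`).
-/

set_option autoImplicit false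

namespace MWS

open Finset

open Classical in
private theorem GB_sum {p g : ℕ} [NeZero p] (κ : ℝ) (G : Set (ZMod p × ZMod p)) :
    ∑ b : Fin g × Fin 2 → ZMod p, (if ∀ l, (b (l, 0), b (l, 1)) ∈ G then 1 - κ else 1) =
      (p : ℝ) ^ (g * 2) - κ * (Nat.card G : ℝ) ^ g := by
  let e : (Fin g × Fin 2 → ZMod p) ≃ (Fin g → ZMod p × ZMod p) :=
    (Equiv.curry (Fin g) (Fin 2) (ZMod p)).trans
      (Equiv.piCongrRight fun _ => finTwoArrowEquiv (ZMod p))
  have h1 : ∑ b : Fin g × Fin 2 → ZMod p, (if ∀ l, (b (l, 0), b (l, 1)) ∈ G then 1 - κ else 1) =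
      ∑ z : Fin g → ZMod p × ZMod p, (if ∀ l, z l ∈ G then 1 - κ else 1) :=
    Fintype.sum_equiv e _ _ fun b => rfl
  have h2 : ∀ z : Fin g → ZMod p × ZMod p, (if ∀ l, z l ∈ G then 1 - κ else (1 : ℝ)) =
      1 - κ * (if ∀ l, z l ∈ G then 1 else 0) := by
    intro z
    split_ifs <;> ring
  rw [h1, Finset.sum_congr rfl fun z _ => h2 z, Finset.sum_sub_distrib, ← Finset.mul_sum,
    Finset.sum_boole]
  have h3 : (univ.filter fun z : Fin g → ZMod p × ZMod p => ∀ l, z l ∈ G).card =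
      Nat.card G ^ g := by
    have h4 : (univ.filter fun z : Fin g → ZMod p × ZMod p => ∀ l, z l ∈ G) =
        Fintype.piFinset fun _ : Fin g => univ.filter fun z : ZMod p × ZMod p => z ∈ G := by
      ext z
      simp only [mem_filter, mem_univ, true_and, Fintype.mem_piFinset]
    have h5 : Nat.card G = (univ.filter fun z : ZMod p × ZMod p => z ∈ G).card := by
      rw [Nat.card_eq_fintype_card, Fintype.card_subtype]
    rw [h4, h5, Fintype.card_piFinset_const]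
  rw [h3]
  have h6 : ∑ _z : Fin g → ZMod p × ZMod p, (1 : ℝ) = (p : ℝ) ^ (g * 2) := by
    rw [Finset.sum_const, Finset.card_univ, Fintype.card_fun, Fintype.card_prod, ZMod.card,
      Fintype.card_fin, nsmul_eq_mul, mul_one, mul_comm g 2, pow_mul, sq]
    push_cast
    rfl
  rw [h6]
  push_cast
  rfl

open Classical in
theorem sum_tuples {g : ℕ} (S : Finset ℕ) (hS : ∀ p ∈ S, p.Prime) {H : ℕ} (hq : ∏ p ∈ S, p ≤ H) {κ : ℝ} (h0 : 0 ≤ κ)
    (h1 : κ ≤ 1) (G : (p : ℕ) → Set (ZMod p × ZMod p)) (γ : ℕ → ℝ) (hγ0 : ∀ p ∈ S, 0 ≤ γ p)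
    (hγ : ∀ p ∈ S, γ p * (p : ℝ) ^ 2 ≤ (Nat.card (G p) : ℝ)) :
    ∑ z ∈ Fintype.piFinset (fun _ : Fin g =>
      Icc (-((H : ℤ) ^ 2)) ((H : ℤ) ^ 2) ×ˢ Icc (-((H : ℤ) ^ 3)) ((H : ℤ) ^ 3)),
      (1 - κ) ^ (S.filter fun p => ∀ l, (((z l).1 : ZMod p), ((z l).2 : ZMod p)) ∈ G p).card ≤
      (16 * (H : ℝ) ^ 5) ^ g * Real.exp (-(κ * ∑ p ∈ S, γ p ^ g)) := by
  let h : Fin g × Fin 2 → ℕ := fun t => ![H ^ 2, H ^ 3] t.2
  let f : (p : ℕ) → (Fin g × Fin 2 → ZMod p) → ℝ := fun p b =>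
    if ∀ l, (b (l, 0), b (l, 1)) ∈ G p then 1 - κ else 1
  have hf0 : ∀ p b, 0 ≤ f p b := by
    intro p b
    show 0 ≤ if ∀ l, (b (l, 0), b (l, 1)) ∈ G p then 1 - κ else 1
    split_ifs <;> linarith
  have hle : ∀ i, ∏ p ∈ S, p ≤ h i := by
    rintro ⟨l, j⟩
    refine hq.trans ?_
    fin_cases j
    · exact Nat.le_self_pow (by norm_num) H
    · exact Nat.le_self_pow (by norm_num) H
  have hcard : Fintype.card (Fin g × Fin 2) = g * 2 := by
    rw [Fintype.card_prod, Fintype.card_fin, Fintype.card_fin]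
  have hg : ∀ p ∈ S, ∀ [NeZero p], ∑ b : Fin g × Fin 2 → ZMod p, f p b ≤
      (1 - κ * γ p ^ g) * (p : ℝ) ^ Fintype.card (Fin g × Fin 2) := by
    intro p hp _
    have e1 : ∑ b : Fin g × Fin 2 → ZMod p, f p b =
        (p : ℝ) ^ (g * 2) - κ * (Nat.card (G p) : ℝ) ^ g := GB_sum κ (G p)
    rw [e1, hcard]
    have h2 : (γ p * (p : ℝ) ^ 2) ^ g ≤ (Nat.card (G p) : ℝ) ^ g :=
      pow_le_pow_left₀ (mul_nonneg (hγ0 p hp) (by positivity)) (hγ p hp) g
    have h3 : (γ p * (p : ℝ) ^ 2) ^ g = γ p ^ g * (p : ℝ) ^ (g * 2) := by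
      rw [mul_pow, ← pow_mul, mul_comm 2 g]
    rw [h3] at h2
    have := mul_le_mul_of_nonneg_left h2 h0
    linarith
  have key := box_crt S hS h hle f hf0 (fun p => 1 - κ * γ p ^ g) hg
  have e2 : ∏ i, (4 * (h i : ℝ)) = (16 * (H : ℝ) ^ 5) ^ g := by
    rw [Fintype.prod_prod_type]
    have e0 : ∀ l : Fin g, ∏ j : Fin 2, (4 * (h (l, j) : ℝ)) = 16 * (H : ℝ) ^ 5 := by
      intro l
      rw [Fin.prod_univ_two]
      show 4 * ((H ^ 2 : ℕ) : ℝ) * (4 * ((H ^ 3 : ℕ) : ℝ)) = _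
      push_cast
      ring
    rw [Finset.prod_congr rfl fun l _ => e0 l, Finset.prod_const, Finset.card_univ,
      Fintype.card_fin]
  have hnn : ∀ p ∈ S, 0 ≤ 1 - κ * γ p ^ g := by
    intro p hp
    have : NeZero p := ⟨(hS p hp).ne_zero⟩
    have h2 := hg p hp
    have h3 : 0 ≤ ∑ b : Fin g × Fin 2 → ZMod p, f p b := Finset.sum_nonneg fun b _ => hf0 p b
    have h4 : (0 : ℝ) < (p : ℝ) ^ Fintype.card (Fin g × Fin 2) := by
      have : (0 : ℝ) < p := by exact_mod_cast (hS p hp).pos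
      positivity
    by_contra hcon
    push Not at hcon
    have := mul_neg_of_neg_of_pos hcon h4
    linarith
  have e3 : ∏ p ∈ S, (1 - κ * γ p ^ g) ≤ Real.exp (-(κ * ∑ p ∈ S, γ p ^ g)) := by
    rw [Finset.mul_sum, ← Finset.sum_neg_distrib, Real.exp_sum]
    refine Finset.prod_le_prod hnn fun p _ => ?_
    have := Real.add_one_le_exp (-(κ * γ p ^ g))
    linarith
  have e4 : ∑ z ∈ Fintype.piFinset (fun _ : Fin g =>
      Icc (-((H : ℤ) ^ 2)) ((H : ℤ) ^ 2) ×ˢ Icc (-((H : ℤ) ^ 3)) ((H : ℤ) ^ 3)),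
      (1 - κ) ^ (S.filter fun p => ∀ l, (((z l).1 : ZMod p), ((z l).2 : ZMod p)) ∈ G p).card =
      ∑ c ∈ Fintype.piFinset (fun i => Icc (-(h i : ℤ)) (h i)),
        ∏ p ∈ S, f p (fun i => ((c i : ℤ) : ZMod p)) := by
    refine Finset.sum_nbij' (fun z => fun t => ![(z t.1).1, (z t.1).2] t.2)
      (fun c => fun l => (c (l, 0), c (l, 1))) ?_ ?_ ?_ ?_ ?_
    · intro z hz
      rw [Fintype.mem_piFinset] at hz
      rw [Fintype.mem_piFinset]
      rintro ⟨l, j⟩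
      have hl := hz l
      rw [mem_product, mem_Icc, mem_Icc] at hl
      fin_cases j
      · simpa [h] using hl.1
      · simpa [h] using hl.2
    · intro c hc
      rw [Fintype.mem_piFinset] at hc
      rw [Fintype.mem_piFinset]
      intro l
      rw [mem_product]
      have c0 := hc (l, 0)
      have c1 := hc (l, 1)
      refine ⟨?_, ?_⟩
      · simpa [h] using c0
      · simpa [h] using c1
    · intro z _
      rfl
    · intro c _
      funext ⟨l, j⟩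
      fin_cases j <;> rfl
    · intro z _
      show _ = ∏ p ∈ S, if ∀ l, (((z l).1 : ZMod p), ((z l).2 : ZMod p)) ∈ G p then 1 - κ else 1
      rw [Finset.prod_ite, Finset.prod_const_one, mul_one, Finset.prod_const]
  rw [e4]
  refine key.trans ?_
  rw [e2]
  exact mul_le_mul_of_nonneg_left e3 (by positivity)

end MWS
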