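import Pool.Agent.Lib.MP_10e784_agBG.GA
import Pool.Agent.Lib.MP_10e784_agBS.S6
import Pool.Agent.Lib.MP_10e784_agBS.S7

/-!
# LEAF GC: one product of curves with few classes modulo `2` (as `MP_10e784_agBS/S8`)

PROOF.  As `one_curve` of `MP_10e784_agBS/S8` (copy the private lemmas `S8_primorial`, `S8_box`).  `L = primorial Y ^ e`, `T = {p ∈ S : Gk p U 1 (A l, B l) for all l}`.  For `p ∈ T` and every `l`:
`p ∤ dsc (A l) (B l)`, `na (A l) (B l) p + 1 ∣ L` (`Gk_dvd` with `k = 1`), `∏_T p ≤ ∏_S p ≤ H`.  If `T` has an element `p`: `2 p + 1 ≤ L`, `few_cls` for every `l` (with this `p`), `fixedG` with `n = L ^ (t + 1)`.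
If `T = ∅`: the trivial bound `(4 H) ^ N` and `1 ≤ L ^ ..`.
-/

set_option autoImplicit false

namespace MWS

open Finset

private theorem GC_primorial {Y : ℕ} (hY : 4 ≤ Y) : 2 ≤ primorial Y := by
  refine Nat.le_of_dvd (primorial_pos Y) ?_
  unfold primorial
  exact Finset.dvd_prod_of_mem (f := fun p => p) (a := 2)
    (Finset.mem_filter.2 ⟨Finset.mem_range.2 (by omega), Nat.prime_two⟩)

private theorem GC_box {ι : Type} [Fintype ι] [DecidableEq ι] {H : ℕ} (hH : 1 ≤ H) (Q : (ι → ℤ) → Prop) :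
    (Nat.card {c : ι → ℤ // (∀ i, |c i| ≤ (H : ℤ)) ∧ Q c} : ℝ) ≤ (4 * (H : ℝ)) ^ Fintype.card ι := by
  classical
  rw [VM_card H Q]
  have h1 : ((Fintype.piFinset (fun _ : ι => Icc (-(H : ℤ)) H)).filter Q).card ≤ (2 * H + 1) ^ Fintype.card ι := by
    refine (card_filter_le _ _).trans ?_
    rw [Fintype.card_piFinset, Finset.prod_const, Int.card_Icc, card_univ]
    refine Nat.pow_le_pow_left ?_ _
    omega
  have h2 : (((Fintype.piFinset (fun _ : ι => Icc (-(H : ℤ)) H)).filter Q).card : ℝ) ≤ ((2 * H + 1 : ℕ) : ℝ) ^ Fintype.card ι := by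
    exact_mod_cast h1
  refine h2.trans ?_
  have h3 : (1 : ℝ) ≤ H := by exact_mod_cast hH
  refine pow_le_pow_left₀ (by positivity) ?_ _
  push_cast
  linarith

open Classical in
theorem one_tuple {ι : Type} [Fintype ι] [DecidableEq ι] {g : ℕ} {κ : ℝ} (h0 : 0 ≤ κ) (h1 : κ ≤ 1)
    {R : (p : ℕ) → (Fin g → Option (ZMod p × ZMod p)) → Set (ι → ZMod p)} (hR : DensG R κ) {A B : Fin g → ℤ}
    (hd : ∀ l, dsc (A l) (B l) ≠ 0) {t : ℕ} (hF : ∀ l, Few (A l) (B l) t) (S : Finset ℕ) {X U Y e H : ℕ}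
    (hS : ∀ p ∈ S, p.Prime ∧ 11 ≤ p ∧ p ≤ X) (hU : 1 ≤ U)
    (hY : 4 * U ≤ Y) (hX : 3 * X ≤ Y * U ^ 1) (he : 3 * X ≤ 2 ^ e) (hq : ∏ p ∈ S, p ≤ H) :
    (Nat.card {c : ι → ℤ // (∀ i, |c i| ≤ (H : ℤ)) ∧ ∃ P : (l : Fin g) → Pt ℚ (A l) (B l), AdmG R c P} : ℝ) ≤
      (((primorial Y : ℝ) ^ e) ^ (t + 1)) ^ g * ((4 * (H : ℝ)) ^ Fintype.card ι *
        (1 - κ) ^ (S.filter fun p => ∀ l, Gk p U 1 ((A l : ZMod p), (B l : ZMod p))).card) := by
  have hprod : ∀ T : Finset ℕ, T ⊆ S → ∏ p ∈ T, p ≤ ∏ p ∈ S, p := fun T hT =>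
    Finset.prod_le_prod_of_subset_of_one_le' hT fun p hp _ => (hS p hp).1.one_lt.le
  have hH : 1 ≤ H := by
    have := (hprod ∅ (Finset.empty_subset S)).trans hq
    simpa using this
  have hP : 2 ≤ primorial Y := GC_primorial (by omega)
  obtain ⟨T, hTdef⟩ : ∃ T : Finset ℕ, T = S.filter fun p => ∀ l, Gk p U 1 ((A l : ZMod p), (B l : ZMod p)) :=
    ⟨_, rfl⟩
  rw [← hTdef]
  have hTS : T ⊆ S := by
    rw [hTdef]
    exact Finset.filter_subset _ _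
  rcases T.eq_empty_or_nonempty with hT | ⟨p, hp⟩
  · rw [hT, Finset.card_empty, pow_zero, mul_one]
    refine (GC_box hH _).trans ?_
    have h2 : (1 : ℝ) ≤ (((primorial Y : ℝ) ^ e) ^ (t + 1)) ^ g := by
      refine one_le_pow₀ (one_le_pow₀ (one_le_pow₀ ?_))
      have : (2 : ℝ) ≤ primorial Y := by exact_mod_cast hP
      linarith
    have h3 : (0 : ℝ) ≤ (4 * (H : ℝ)) ^ Fintype.card ι := by positivity
    nlinarith
  · have hG : ∀ q ∈ T, ∀ l, Gk q U 1 ((A l : ZMod q), (B l : ZMod q)) := fun q hq => by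
      rw [hTdef] at hq
      exact (Finset.mem_filter.1 hq).2
    have hdv : ∀ q ∈ T, ∀ l, ¬ (q : ℤ) ∣ dsc (A l) (B l) := by
      intro q hq l hdvd
      refine (hG q hq l).1 ?_
      have := (ZMod.intCast_zmod_eq_zero_iff_dvd (dsc (A l) (B l)) q).2 hdvd
      simpa [dsc] using this
    have hT' : ∀ q ∈ T, q.Prime ∧ 11 ≤ q ∧ ∀ l, ¬ (q : ℤ) ∣ dsc (A l) (B l) ∧
        na (A l) (B l) q + 1 ∣ primorial Y ^ e := by
      intro q hq
      obtain ⟨a1, a2, a3⟩ := hS q (hTS hq)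
      exact ⟨a1, a2, fun l => ⟨hdv q hq l, Gk_dvd a1 a3 (hG q hq l) hU hY hX he⟩⟩
    obtain ⟨b1, b2, b3⟩ := hS p (hTS hp)
    have hL : 2 * p + 1 ≤ primorial Y ^ e := by
      have : 2 ^ e ≤ primorial Y ^ e := Nat.pow_le_pow_left hP e
      omega
    have hcls := fun l => few_cls (hd l) (hF l) b1 b2 (hdv p hp l) hL
    choose r hr using hcls
    have key := fixedG h0 h1 hR r hr T hT' (H := H) ((hprod T hTS).trans hq)
    push_cast at key
    exact key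

end MWS
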