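import Pool.Agent.Lib.MP_10e784_agBG.GB
import Pool.Agent.Lib.MP_10e784_agBG.GC

/-!
# LEAF GD: all the tuples (as `MP_10e784_agBS/S9`)

PROOF.  As `total` of `MP_10e784_agBS/S9`.  The number of the statement is the sum over the tuples `z : Fin g → ℤ × ℤ` of the box (`Fintype.piFinset` of `B0 = Icc × Icc`) with `dsc ≠ 0` everywhere of the number of the `c`.
(1) Tuples with `Few (z l).1 (z l).2 t` for all `l`: `one_tuple` and `sum_tuples` (`G p = {z | Gk p U 1 z}`).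
(2) The other tuples: for some `l` the pair `z l` is in the set `Bd` of `hbad`, `#Bd ≤ C H⁵ (1 + log H) / 2 ^ t`; so there are at most `g · #Bd · (#B0) ^ (g - 1)` of them (union over `l`; for fixed `l` the tuples are
in `Fintype.piFinset (fun j => if j = l then Bd else B0)`, `Fintype.card_piFinset`, `Finset.prod_ite_eq`-like or `Finset.prod_update_of_mem` / `mul_prod_erase`), `#B0 = (2 H² + 1)(2 H³ + 1) ≤ 16 H⁵`,
each with at most `(4 H) ^ N` vectors `c` (`S9_box`, copy).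
`hC : 0 ≤ C` is a hypothesis (replace `C` by `max C 0`).
-/

set_option autoImplicit false

namespace MWS

open Finset

private theorem GD_fin {ι : Type} [Fintype ι] [DecidableEq ι] (H : ℕ) (Q : (ι → ℤ) → Prop) :
    Finite {c : ι → ℤ // (∀ t, |c t| ≤ (H : ℤ)) ∧ Q c} := by
  let f : {c : ι → ℤ // (∀ t, |c t| ≤ (H : ℤ)) ∧ Q c} → ι → (Icc (-(H : ℤ)) H : Finset ℤ) :=
    fun c t => ⟨c.1 t, mem_Icc.2 (abs_le.1 (c.2.1 t))⟩
  have hf : Function.Injective f := by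
    intro a b hab
    refine Subtype.ext (funext fun t => ?_)
    exact congrArg Subtype.val (congrFun hab t)
  exact Finite.of_injective f hf

private theorem GD_box {ι : Type} [Fintype ι] [DecidableEq ι] {H : ℕ} (hH : 1 ≤ H) (Q : (ι → ℤ) → Prop) :
    (Nat.card {c : ι → ℤ // (∀ t, |c t| ≤ (H : ℤ)) ∧ Q c} : ℝ) ≤ (4 * (H : ℝ)) ^ Fintype.card ι := by
  classical
  rw [VM_card]
  have h1 : ((Fintype.piFinset (fun _ : ι => Icc (-(H : ℤ)) H)).filter Q).card ≤ (4 * H) ^ Fintype.card ι := by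
    refine (card_filter_le _ _).trans ?_
    rw [Fintype.card_piFinset, prod_const, card_univ]
    refine Nat.pow_le_pow_left ?_ _
    rw [Int.card_Icc]
    omega
  exact_mod_cast h1

private theorem GD_pi {g : ℕ} {α : Type} [DecidableEq α] (l : Fin g) (s u : Finset α) :
    (Fintype.piFinset (fun j : Fin g => if j = l then s else u)).card = s.card * u.card ^ (g - 1) := by
  rw [Fintype.card_piFinset, ← mul_prod_erase univ _ (mem_univ l), if_pos rfl]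
  congr 1
  rw [prod_congr rfl (g := fun _ => u.card) (fun j hj => by rw [if_neg (ne_of_mem_erase hj)]), prod_const,
    card_erase_of_mem (mem_univ l), card_univ, Fintype.card_fin]

private theorem GD_B0 {H : ℕ} (hH : 1 ≤ H) :
    (((Icc (-((H : ℤ) ^ 2)) ((H : ℤ) ^ 2) ×ˢ Icc (-((H : ℤ) ^ 3)) ((H : ℤ) ^ 3) : Finset (ℤ × ℤ)).card : ℕ) : ℝ) ≤
      16 * (H : ℝ) ^ 5 := by
  have e1 : (Icc (-((H : ℤ) ^ 2)) ((H : ℤ) ^ 2)).card = 2 * H ^ 2 + 1 := by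
    rw [Int.card_Icc]
    have : (H : ℤ) ^ 2 + 1 - -((H : ℤ) ^ 2) = ((2 * H ^ 2 + 1 : ℕ) : ℤ) := by push_cast; ring
    rw [this, Int.toNat_natCast]
  have e2 : (Icc (-((H : ℤ) ^ 3)) ((H : ℤ) ^ 3)).card = 2 * H ^ 3 + 1 := by
    rw [Int.card_Icc]
    have : (H : ℤ) ^ 3 + 1 - -((H : ℤ) ^ 3) = ((2 * H ^ 3 + 1 : ℕ) : ℤ) := by push_cast; ring
    rw [this, Int.toNat_natCast]
  rw [card_product, e1, e2]
  have h1 : (1 : ℝ) ≤ H := by exact_mod_cast hH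
  have h2 : (1 : ℝ) ≤ (H : ℝ) ^ 2 := one_le_pow₀ h1
  have h3 : (1 : ℝ) ≤ (H : ℝ) ^ 3 := one_le_pow₀ h1
  push_cast
  calc (2 * (H : ℝ) ^ 2 + 1) * (2 * (H : ℝ) ^ 3 + 1)
      ≤ (4 * (H : ℝ) ^ 2) * (4 * (H : ℝ) ^ 3) :=
        mul_le_mul (by linarith) (by linarith) (by positivity) (by positivity)
    _ = 16 * (H : ℝ) ^ 5 := by ring

theorem totalG {ι : Type} [Fintype ι] [DecidableEq ι] {g : ℕ} {κ : ℝ} (h0 : 0 ≤ κ) (h1 : κ ≤ 1)
    {R : (p : ℕ) → (Fin g → Option (ZMod p × ZMod p)) → Set (ι → ZMod p)} (hR : DensG R κ) {C : ℝ} (hC : 0 ≤ C)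
    {t H : ℕ}
    (hbad : (Nat.card {z : ℤ × ℤ // |z.1| ≤ (H : ℤ) ^ 2 ∧ |z.2| ≤ (H : ℤ) ^ 3 ∧ dsc z.1 z.2 ≠ 0 ∧
      ¬ Few z.1 z.2 t} : ℝ) * 2 ^ t ≤ C * (H : ℝ) ^ 5 * (1 + Real.log H))
    (S : Finset ℕ) {X U Y e : ℕ} (hS : ∀ p ∈ S, p.Prime ∧ 11 ≤ p ∧ p ≤ X) (hU : 1 ≤ U)
    (hY : 4 * U ≤ Y) (hX : 3 * X ≤ Y * U ^ 1) (he : 3 * X ≤ 2 ^ e) (hq : ∏ p ∈ S, p ≤ H) (γ : ℕ → ℝ)
    (hγ0 : ∀ p ∈ S, 0 ≤ γ p) (hγ : ∀ p ∈ S, γ p * (p : ℝ) ^ 2 ≤ (Nat.card {z // Gk p U 1 z} : ℝ)) :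
    (Nat.card (ZG H R) : ℝ) ≤
      (4 * (H : ℝ)) ^ Fintype.card ι * ((((primorial Y : ℝ) ^ e) ^ (t + 1)) ^ g *
        ((16 * (H : ℝ) ^ 5) ^ g * Real.exp (-(κ * ∑ p ∈ S, γ p ^ g))) +
        g * (C * (H : ℝ) ^ 5 * (1 + Real.log H) / 2 ^ t) * (16 * (H : ℝ) ^ 5) ^ (g - 1)) := by
  classical
  have hH : 1 ≤ H := by
    refine le_trans ?_ hq
    refine Nat.one_le_iff_ne_zero.2 (prod_ne_zero_iff.2 fun p hp => ?_)
    have := (hS p hp).2.1
    omega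
  have hHr : (1 : ℝ) ≤ H := by exact_mod_cast hH
  set B0 : Finset (ℤ × ℤ) := Icc (-((H : ℤ) ^ 2)) ((H : ℤ) ^ 2) ×ˢ Icc (-((H : ℤ) ^ 3)) ((H : ℤ) ^ 3) with hB0
  have hmem0 : ∀ z : ℤ × ℤ, z ∈ B0 ↔ |z.1| ≤ (H : ℤ) ^ 2 ∧ |z.2| ≤ (H : ℤ) ^ 3 := by
    intro z
    rw [hB0, mem_product, mem_Icc, mem_Icc, abs_le, abs_le]
  set P0 : Finset (Fin g → ℤ × ℤ) := Fintype.piFinset (fun _ : Fin g => B0) with hP0
  set I : Finset (Fin g → ℤ × ℤ) := P0.filter (fun z => ∀ l, dsc (z l).1 (z l).2 ≠ 0) with hI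
  have hmem : ∀ z : Fin g → ℤ × ℤ, z ∈ I ↔ (∀ l, |(z l).1| ≤ (H : ℤ) ^ 2 ∧ |(z l).2| ≤ (H : ℤ) ^ 3) ∧
      ∀ l, dsc (z l).1 (z l).2 ≠ 0 := by
    intro z
    rw [hI, mem_filter, hP0, Fintype.mem_piFinset]
    exact and_congr_left fun _ => forall_congr' fun l => hmem0 (z l)
  have hfin : ∀ z : Fin g → ℤ × ℤ, Finite {c : ι → ℤ // (∀ i, |c i| ≤ (H : ℤ)) ∧
      ∃ P : (l : Fin g) → Pt ℚ (z l).1 (z l).2, AdmG (A := fun l => (z l).1) (B := fun l => (z l).2) R c P} :=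
    fun z => GD_fin H _
  have hW : Nat.card (ZG H R) =
      ∑ z ∈ I, Nat.card {c : ι → ℤ // (∀ i, |c i| ≤ (H : ℤ)) ∧
        ∃ P : (l : Fin g) → Pt ℚ (z l).1 (z l).2, AdmG (A := fun l => (z l).1) (B := fun l => (z l).2) R c P} := by
    rw [← Finset.sum_coe_sort I (fun z => Nat.card {c : ι → ℤ // (∀ i, |c i| ≤ (H : ℤ)) ∧
      ∃ P : (l : Fin g) → Pt ℚ (z l).1 (z l).2, AdmG (A := fun l => (z l).1) (B := fun l => (z l).2) R c P}),
      ← Nat.card_sigma]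
    refine Nat.card_congr
      { toFun := fun z => ⟨⟨z.1.1, (hmem _).2 ⟨fun l => ⟨z.2.2.1 l, z.2.2.2.1 l⟩, z.2.1⟩⟩, ⟨z.1.2, z.2.2.2.2⟩⟩
        invFun := fun z => ⟨(z.1.1, z.2.1), ((hmem _).1 z.1.2).2, fun l => (((hmem _).1 z.1.2).1 l).1,
          fun l => (((hmem _).1 z.1.2).1 l).2, z.2.2⟩
        left_inv := fun z => rfl
        right_inv := fun z => rfl }
  rw [hW]
  push_cast
  have h4 : (0 : ℝ) ≤ (4 * (H : ℝ)) ^ Fintype.card ι := by positivity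
  rw [← Finset.sum_filter_add_sum_filter_not I (fun z => ∀ l, Few (z l).1 (z l).2 t), mul_add]
  refine add_le_add ?_ ?_
  · have hsum := sum_tuples (g := g) S (fun p hp => (hS p hp).1) hq h0 h1 (fun p => {z | Gk p U 1 z}) γ hγ0 hγ
    have hone : ∀ z ∈ I.filter (fun z => ∀ l, Few (z l).1 (z l).2 t),
        (Nat.card {c : ι → ℤ // (∀ i, |c i| ≤ (H : ℤ)) ∧
          ∃ P : (l : Fin g) → Pt ℚ (z l).1 (z l).2, AdmG (A := fun l => (z l).1) (B := fun l => (z l).2) R c P} : ℝ) ≤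
        (((primorial Y : ℝ) ^ e) ^ (t + 1)) ^ g * ((4 * (H : ℝ)) ^ Fintype.card ι *
        (1 - κ) ^ (S.filter fun p => ∀ l, (((z l).1 : ZMod p), ((z l).2 : ZMod p)) ∈ {z | Gk p U 1 z}).card) := by
      intro z hz
      rw [mem_filter, hmem] at hz
      have h := one_tuple h0 h1 hR hz.1.2 hz.2 S hS hU hY hX he hq
      refine h.trans (le_of_eq ?_)
      congr 3
    refine (sum_le_sum hone).trans ?_
    have hκ : 0 ≤ 1 - κ := by linarith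
    calc ∑ z ∈ I.filter (fun z => ∀ l, Few (z l).1 (z l).2 t), (((primorial Y : ℝ) ^ e) ^ (t + 1)) ^ g *
          ((4 * (H : ℝ)) ^ Fintype.card ι *
          (1 - κ) ^ (S.filter fun p => ∀ l, (((z l).1 : ZMod p), ((z l).2 : ZMod p)) ∈ {z | Gk p U 1 z}).card)
        ≤ ∑ z ∈ P0, (((primorial Y : ℝ) ^ e) ^ (t + 1)) ^ g * ((4 * (H : ℝ)) ^ Fintype.card ι *
          (1 - κ) ^ (S.filter fun p => ∀ l, (((z l).1 : ZMod p), ((z l).2 : ZMod p)) ∈ {z | Gk p U 1 z}).card) := by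
          refine sum_le_sum_of_subset_of_nonneg ((filter_subset _ _).trans (filter_subset _ _)) ?_
          intro z _ _
          positivity
      _ = (((primorial Y : ℝ) ^ e) ^ (t + 1)) ^ g * ((4 * (H : ℝ)) ^ Fintype.card ι *
          ∑ z ∈ P0, (1 - κ) ^ (S.filter fun p => ∀ l, (((z l).1 : ZMod p), ((z l).2 : ZMod p)) ∈
            {z | Gk p U 1 z}).card) := by
          rw [mul_sum, mul_sum]
      _ ≤ (((primorial Y : ℝ) ^ e) ^ (t + 1)) ^ g * ((4 * (H : ℝ)) ^ Fintype.card ι *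
          ((16 * (H : ℝ) ^ 5) ^ g * Real.exp (-(κ * ∑ p ∈ S, γ p ^ g)))) := by
          refine mul_le_mul_of_nonneg_left (mul_le_mul_of_nonneg_left ?_ h4) (by positivity)
          refine (le_of_eq ?_).trans hsum
          refine sum_congr rfl fun z _ => ?_
          congr 2
      _ = _ := by ring
  · set Bd : Finset (ℤ × ℤ) := B0.filter (fun z => dsc z.1 z.2 ≠ 0 ∧ ¬ Few z.1 z.2 t) with hBd
    have hbadc : ((Bd.card : ℕ) : ℝ) =
        (Nat.card {z : ℤ × ℤ // |z.1| ≤ (H : ℤ) ^ 2 ∧ |z.2| ≤ (H : ℤ) ^ 3 ∧ dsc z.1 z.2 ≠ 0 ∧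
        ¬ Few z.1 z.2 t} : ℝ) := by
      rw [Nat.subtype_card Bd]
      intro z
      rw [hBd, mem_filter, hmem0, and_assoc]
    have hBd' : ((Bd.card : ℕ) : ℝ) ≤ C * (H : ℝ) ^ 5 * (1 + Real.log H) / 2 ^ t := by
      rw [le_div_iff₀ (by positivity), hbadc]
      exact hbad
    have hsub : I.filter (fun z => ¬ ∀ l, Few (z l).1 (z l).2 t) ⊆
        univ.biUnion (fun l : Fin g => Fintype.piFinset (fun j : Fin g => if j = l then Bd else B0)) := by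
      intro z hz
      rw [mem_filter, hmem] at hz
      obtain ⟨l, hl⟩ := not_forall.1 hz.2
      rw [mem_biUnion]
      refine ⟨l, mem_univ l, Fintype.mem_piFinset.2 fun j => ?_⟩
      by_cases hj : j = l
      · rw [if_pos hj, hj, hBd, mem_filter, hmem0]
        exact ⟨hz.1.1 l, hz.1.2 l, hl⟩
      · rw [if_neg hj, hmem0]
        exact hz.1.1 j
    have hcard : (((I.filter (fun z => ¬ ∀ l, Few (z l).1 (z l).2 t)).card : ℕ) : ℝ) ≤
        g * (C * (H : ℝ) ^ 5 * (1 + Real.log H) / 2 ^ t) * (16 * (H : ℝ) ^ 5) ^ (g - 1) := by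
      have h5 : (I.filter (fun z => ¬ ∀ l, Few (z l).1 (z l).2 t)).card ≤ ∑ _l : Fin g, Bd.card * B0.card ^ (g - 1) := by
        refine (card_le_card hsub).trans (card_biUnion_le.trans (le_of_eq ?_))
        exact sum_congr rfl fun l _ => GD_pi l Bd B0
      rw [sum_const, card_univ, Fintype.card_fin, smul_eq_mul] at h5
      have h6 : (((I.filter (fun z => ¬ ∀ l, Few (z l).1 (z l).2 t)).card : ℕ) : ℝ) ≤
          (g : ℝ) * ((Bd.card : ℝ) * (B0.card : ℝ) ^ (g - 1)) := by exact_mod_cast h5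
      refine h6.trans ?_
      rw [mul_assoc]
      refine mul_le_mul_of_nonneg_left ?_ (Nat.cast_nonneg g)
      exact mul_le_mul hBd' (pow_le_pow_left₀ (Nat.cast_nonneg _) (GD_B0 hH) _) (by positivity)
        ((Nat.cast_nonneg _).trans hBd')
    calc ∑ z ∈ I.filter (fun z => ¬ ∀ l, Few (z l).1 (z l).2 t),
          (Nat.card {c : ι → ℤ // (∀ i, |c i| ≤ (H : ℤ)) ∧
            ∃ P : (l : Fin g) → Pt ℚ (z l).1 (z l).2, AdmG (A := fun l => (z l).1) (B := fun l => (z l).2) R c P} : ℝ)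
        ≤ ∑ _z ∈ I.filter (fun z => ¬ ∀ l, Few (z l).1 (z l).2 t), (4 * (H : ℝ)) ^ Fintype.card ι :=
          sum_le_sum fun z _ => GD_box hH _
      _ = (4 * (H : ℝ)) ^ Fintype.card ι *
          ((I.filter (fun z => ¬ ∀ l, Few (z l).1 (z l).2 t)).card : ℝ) := by
          rw [sum_const, nsmul_eq_mul, mul_comm]
      _ ≤ _ := mul_le_mul_of_nonneg_left hcard h4

end MWS
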