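import Pool.Agent.Lib.MP_10e784_agBS.Adm
import Pool.Agent.Lib.MP_10e784_agV.VB2

/-!
# The Mordell-Weil sieve on average on products of elliptic curves: definitions and the interface of block P
-/

set_option autoImplicit false

namespace MWS

open Finset

/-- the interface of block P for products: many curves modulo `p` with a prime `l ~ U` dividing the number of points, with
density `c / log p` -/
def FactQ : Prop := ∃ c : ℝ, 0 < c ∧ ∃ K : ℕ, ∀ U : ℕ, K ≤ U → ∀ p : ℕ, p.Prime → U ^ K ≤ p →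
  (K : ℝ) * Real.log p ≤ U → c * (p : ℝ) ^ 2 / Real.log p ≤ (Nat.card {z // Gk p U 1 z} : ℝ)

/-- the integral vector `c` satisfies the local conditions `R p z`, `z` the reduction of the point `P` of the product of
the `g` curves, at all the primes `p ≥ 11` of good reduction -/
def AdmG {ι : Type} {g : ℕ} (R : (p : ℕ) → (Fin g → Option (ZMod p × ZMod p)) → Set (ι → ZMod p)) {A B : Fin g → ℤ}
    (c : ι → ℤ) (P : (l : Fin g) → Pt ℚ (A l) (B l)) : Prop :=
  ∀ p : ℕ, p.Prime → 11 ≤ p → (∀ l, ¬ (p : ℤ) ∣ dsc (A l) (B l)) →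
    (fun i => ((c i : ℤ) : ZMod p)) ∈ R p (fun l => rd p (P l))

/-- the density of each local condition is at most `1 - κ` -/
def DensG {ι : Type} [Fintype ι] {g : ℕ} (R : (p : ℕ) → (Fin g → Option (ZMod p × ZMod p)) → Set (ι → ZMod p))
    (κ : ℝ) : Prop :=
  ∀ p : ℕ, p.Prime → 11 ≤ p → ∀ z, (Nat.card (R p z) : ℝ) ≤ (1 - κ) * (p : ℝ) ^ Fintype.card ι

/-- the index set of the basis of the sections of `O(2 d_1 O) ⊠ .. ⊠ O(2 d_g O)` -/
abbrev Tn {g : ℕ} (d : Fin g → ℕ) : Type := (l : Fin g) → Bs (d l)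

/-- the values of the basis at a point of the product -/
def tv {F : Type*} [CommRing F] {g : ℕ} {d : Fin g → ℕ} (z : Fin g → Option (F × F)) (k : Tn d) : F :=
  ∏ l, bv (z l) (k l)

/-- the local condition for the double covers `w² = F` -/
def RG1 {g : ℕ} (d : Fin g → ℕ) (p : ℕ) (z : Fin g → Option (ZMod p × ZMod p)) : Set (Tn d → ZMod p) :=
  {c | IsSquare (∑ k, c k * tv z k)}

/-- the local condition for the hypersurfaces `∑ F_i u^i v^(n-i) = 0` in the product times `ℙ¹` -/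
def RG2 {g : ℕ} (n : ℕ) (d : Fin g → ℕ) (p : ℕ) (z : Fin g → Option (ZMod p × ZMod p)) :
    Set (Fin (n + 1) × Tn d → ZMod p) :=
  {c | ∃ a b : ZMod p, (a ≠ 0 ∨ b ≠ 0) ∧
    ∑ i : Fin (n + 1), (∑ k, c (i, k) * tv z k) * a ^ (i : ℕ) * b ^ (n - (i : ℕ)) = 0}

/-- the local condition for the common zeros of `J` sections -/
def RG3 {g J : ℕ} (d : Fin J → Fin g → ℕ) (p : ℕ) (z : Fin g → Option (ZMod p × ZMod p)) : Set (CA d → ZMod p) :=
  {c | ∀ j, SA c z j = 0}

/-- the set of the tuples `((A_l, B_l)_l, c)` of the box with a point satisfying the local conditions -/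
abbrev ZG {ι : Type} {g : ℕ} (H : ℕ) (R : (p : ℕ) → (Fin g → Option (ZMod p × ZMod p)) → Set (ι → ZMod p)) : Type :=
  {z : (Fin g → ℤ × ℤ) × (ι → ℤ) // (∀ l, dsc (z.1 l).1 (z.1 l).2 ≠ 0) ∧ (∀ l, |(z.1 l).1| ≤ (H : ℤ) ^ 2) ∧
    (∀ l, |(z.1 l).2| ≤ (H : ℤ) ^ 3) ∧ (∀ i, |z.2 i| ≤ (H : ℤ)) ∧
    ∃ P : (l : Fin g) → Pt ℚ (z.1 l).1 (z.1 l).2, AdmG (A := fun l => (z.1 l).1) (B := fun l => (z.1 l).2) R z.2 P}

end MWS
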