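import Pool.Agent.Lib.MP_10e784_agBG.GE

/-!
# LEAF GF: the choice of the parameters in terms of `H` (as `MP_10e784_agBS/S11`)

PROOF.  Copy of `par_H` of `MP_10e784_agBS/S11` with `par_gX`: `X = ⌊log H / 2⌋₊`.
-/

set_option autoImplicit false

namespace MWS

open Filter

theorem par_gH (K₁ : ℕ) : ∃ c₀ : ℝ, 0 < c₀ ∧ ∀ (g : ℕ) (K q : ℝ), 1 ≤ K → 0 < q → ∀ x₀ : ℝ, ∃ H₀ : ℕ, ∀ H : ℕ,
    H₀ ≤ H → ∃ X U t e Y : ℕ, x₀ ≤ X ∧ 4 ^ X ≤ H ∧ (11 : ℝ) ≤ X / K ∧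
    1 ≤ U ∧ K₁ ≤ U ∧ (U : ℝ) ^ K₁ ≤ X / K ∧ (K₁ : ℝ) * Real.log X ≤ U ∧ 3 * X ≤ 2 ^ e ∧
    4 * U ≤ Y ∧ 3 * X ≤ Y * U ^ 1 ∧
    (g : ℝ) * (((t : ℝ) + 1) * e * Y * Real.log 4) + (Real.log H) ^ c₀ ≤ q * X / (Real.log X) ^ (g + 1) ∧
    Real.log (1 + Real.log H) + (Real.log H) ^ c₀ ≤ t * Real.log 2 := by
  obtain ⟨c₀, hc₀, hpar⟩ := par_gX K₁
  refine ⟨c₀, hc₀, fun g K q hK hq x₀ => ?_⟩
  have hlim : Tendsto (fun H : ℕ => ⌊Real.log (H : ℝ) / 2⌋₊) atTop atTop := by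
    refine tendsto_nat_floor_atTop.comp ?_
    exact (Real.tendsto_log_atTop.comp tendsto_natCast_atTop_atTop).atTop_div_const (by norm_num)
  have hX1 : ∀ᶠ X : ℕ in atTop, x₀ ≤ (X : ℝ) := tendsto_natCast_atTop_atTop.eventually_ge_atTop x₀
  have hX2 : ∀ᶠ X : ℕ in atTop, 11 * K ≤ (X : ℝ) := tendsto_natCast_atTop_atTop.eventually_ge_atTop (11 * K)
  have hall := hlim.eventually (((hpar g K q hK hq).and hX1).and hX2)
  obtain ⟨H₀, hH₀⟩ := eventually_atTop.1 hall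
  refine ⟨max H₀ 1, fun H hH => ?_⟩
  have hH1 : 1 ≤ H := le_trans (le_max_right _ _) hH
  obtain ⟨⟨⟨U, t, e, Y, h1, h2, h3, h4, h5, h6, h7, h8, h9⟩, h12⟩, h13⟩ :=
    hH₀ H (le_trans (le_max_left _ _) hH)
  have hHpos : (0 : ℝ) < H := by exact_mod_cast hH1
  have hlog0 : 0 ≤ Real.log H := Real.log_nonneg (by exact_mod_cast hH1)
  set X : ℕ := ⌊Real.log (H : ℝ) / 2⌋₊ with hX
  have hXle : (X : ℝ) ≤ Real.log H / 2 := Nat.floor_le (by positivity)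
  have hXlt : Real.log H / 2 < (X : ℝ) + 1 := Nat.lt_floor_add_one _
  have hlog4 : Real.log 4 ≤ 2 := by
    have : Real.log 4 = 2 * Real.log 2 := by
      rw [show (4 : ℝ) = 2 ^ 2 by norm_num, Real.log_pow]
      norm_num
    have h := Real.log_two_lt_d9
    linarith
  have hlog4' : 0 ≤ Real.log 4 := Real.log_nonneg (by norm_num)
  have hX0 : (0 : ℝ) ≤ X := Nat.cast_nonneg _
  have h4X : 4 ^ X ≤ H := by
    have h : ((4 : ℝ)) ^ X ≤ H := by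
      rw [← Real.log_le_log_iff (by positivity) hHpos, Real.log_pow]
      nlinarith
    exact_mod_cast h
  have hle : Real.log H ≤ 4 * (X : ℝ) + 4 := by linarith
  have hpow : (Real.log H) ^ c₀ ≤ (4 * (X : ℝ) + 4) ^ c₀ := Real.rpow_le_rpow hlog0 hle hc₀.le
  have hll : Real.log (1 + Real.log H) ≤ Real.log (4 * X + 5) :=
    Real.log_le_log (by linarith) (by linarith)
  refine ⟨X, U, t, e, Y, h12, h4X, ?_, h1, h2, h3, h4, h5, h6, h7, ?_, ?_⟩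
  · rw [le_div_iff₀ (by linarith)]
    exact h13
  · linarith
  · linarith

end MWS
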