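import Pool.Agent.Lib.MP_10e784_agBG.GD
import Pool.Agent.Lib.MP_10e784_agBG.GF
import Pool.Agent.Lib.MP_10e784_agW.SD

/-!
# LEAF GG: the sieve on average over all products of `g` elliptic curves (as `MP_10e784_agBS/S12`, only `k = 1`)

PROOF.  Copy of `core` and `S12_step` of `MP_10e784_agBS/S12` with `totalG`, `par_gH`, and `FactQ` instead of `FactP` (no case distinction: `S₁ = S₀ = SS (-1) A K X`, `γ p = c / log X`, `γ ^ g`).
`c₀` from `par_gH K₁` (`K₁` the constant of `FactQ`); given `g`, `N`, `κ`: `q = κ c ^ g / K`, `H₀` from `par_gH K₁ g K q`.  For `p ∈ S₀`: `p` prime, `11 ≤ p ≤ X`, `U ^ K₁ ≤ X / K < p`, `K₁ log p ≤ K₁ log X ≤ U`, so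
`c p² / log X ≤ c p² / log p ≤ #Gk p U 1`.  `|S₀| ≥ X / (K log X)`, so `κ |S₀| (c / log X) ^ g ≥ q X / (log X) ^ (g + 1) ≥ g (t + 1) e Y log 4 + (log H) ^ c₀`.
The bad part: `g (C H⁵ (1 + log H) / 2 ^ t) (16 H⁵) ^ (g - 1) ≤ g C 16 ^ g H ^ (5 g) exp (-(log H) ^ c₀)` (if `g = 0` it is `0`), `C = max CR 0`.
Small `H < H₀`: `totalG` with `S = ∅`, `t = 0`, `X = 0`, `U = 1`, `Y = 4`, `e = 0` as in S12, constants absorbed with `exp ((log H₀) ^ c₀)`.
-/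

set_option autoImplicit false

namespace MWS

open Finset

/-- the bad part has the right power of `H` -/
private theorem GG_pow (g : ℕ) {H : ℝ} (hH : 0 ≤ H) :
    (g : ℝ) * (H ^ 5 * (16 * H ^ 5) ^ (g - 1)) ≤ g * 16 ^ g * H ^ (5 * g) := by
  cases g with
  | zero => simp
  | succ n =>
    rw [Nat.add_sub_cancel, mul_pow]
    have h1 : ((n + 1 : ℕ) : ℝ) * (H ^ 5 * (16 ^ n * (H ^ 5) ^ n)) = (n + 1 : ℕ) * 16 ^ n * H ^ (5 * (n + 1)) := by
      ring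
    rw [h1]
    refine mul_le_mul_of_nonneg_right ?_ (pow_nonneg hH _)
    refine mul_le_mul_of_nonneg_left ?_ (Nat.cast_nonneg _)
    rw [pow_succ]
    have h2 : (0 : ℝ) ≤ 16 ^ n := by positivity
    linarith

/-- one choice of the parameters -/
private theorem GG_step {ι : Type} [Fintype ι] [DecidableEq ι] {g : ℕ} {κ : ℝ} (h0 : 0 ≤ κ) (h1 : κ ≤ 1)
    {R : (p : ℕ) → (Fin g → Option (ZMod p × ZMod p)) → Set (ι → ZMod p)} (hR : DensG R κ) {C c₀ γ₀ : ℝ} (hC : 0 ≤ C)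
    {t H : ℕ} (hH : 1 ≤ H)
    (hbad : (Nat.card {z : ℤ × ℤ // |z.1| ≤ (H : ℤ) ^ 2 ∧ |z.2| ≤ (H : ℤ) ^ 3 ∧ dsc z.1 z.2 ≠ 0 ∧
      ¬ Few z.1 z.2 t} : ℝ) * 2 ^ t ≤ C * (H : ℝ) ^ 5 * (1 + Real.log H))
    (S : Finset ℕ) {X U Y e : ℕ} (hS : ∀ p ∈ S, p.Prime ∧ 11 ≤ p ∧ p ≤ X) (hU : 1 ≤ U)
    (hY : 4 * U ≤ Y) (hX : 3 * X ≤ Y * U ^ 1) (he : 3 * X ≤ 2 ^ e) (hq : 4 ^ X ≤ H) (hγ0 : 0 ≤ γ₀)
    (hγ : ∀ p ∈ S, γ₀ * (p : ℝ) ^ 2 ≤ (Nat.card {z // Gk p U 1 z} : ℝ))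
    (hl : (g : ℝ) * (((t : ℝ) + 1) * e * Y * Real.log 4) + (Real.log H) ^ c₀ ≤ κ * (S.card * γ₀ ^ g))
    (ht : Real.log (1 + Real.log H) + (Real.log H) ^ c₀ ≤ t * Real.log 2) :
    (Nat.card (ZG H R) : ℝ) ≤
      4 ^ Fintype.card ι * (16 ^ g + g * C * 16 ^ g) * (H : ℝ) ^ (Fintype.card ι + 5 * g) *
        Real.exp (-(Real.log H) ^ c₀) := by
  have hHr : (1 : ℝ) ≤ H := by exact_mod_cast hH
  have hlog : 0 ≤ Real.log H := Real.log_nonneg hHr
  have hq' : ∏ p ∈ S, p ≤ H := by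
    refine le_trans ?_ ((primorial_le_four_pow X).trans hq)
    unfold primorial
    refine prod_le_prod_of_subset_of_one_le' (fun p hp => ?_) (fun p hp _ => ?_)
    · obtain ⟨a1, a2, a3⟩ := hS p hp
      exact mem_filter.2 ⟨mem_range.2 (by omega), a1⟩
    · exact (mem_filter.1 hp).2.one_le
  have h2 := totalG h0 h1 hR hC hbad S hS hU hY hX he hq' (fun _ => γ₀) (fun _ _ => hγ0) hγ
  refine h2.trans ?_
  have e1 : (((primorial Y : ℝ) ^ e) ^ (t + 1)) ^ g ≤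
      Real.exp ((g : ℝ) * (((t : ℝ) + 1) * e * Y * Real.log 4)) := by
    have a1 : (primorial Y : ℝ) ≤ 4 ^ Y := by exact_mod_cast primorial_le_four_pow Y
    have a2 : Real.exp (((t : ℝ) + 1) * e * Y * Real.log 4) = (((4 : ℝ) ^ Y) ^ e) ^ (t + 1) := by
      have a3 : Real.log ((((4 : ℝ) ^ Y) ^ e) ^ (t + 1)) = ((t : ℝ) + 1) * e * Y * Real.log 4 := by
        rw [Real.log_pow, Real.log_pow, Real.log_pow]
        push_cast
        ring
      rw [← a3, Real.exp_log (by positivity)]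
    rw [Real.exp_nat_mul, a2]
    exact pow_le_pow_left₀ (by positivity)
      (pow_le_pow_left₀ (by positivity) (pow_le_pow_left₀ (by positivity) a1 _) _) _
  have e2 : κ * ∑ p ∈ S, (fun _ : ℕ => γ₀) p ^ g = κ * (S.card * γ₀ ^ g) := by
    rw [sum_const, nsmul_eq_mul]
  have e3 : (((primorial Y : ℝ) ^ e) ^ (t + 1)) ^ g *
      ((16 * (H : ℝ) ^ 5) ^ g * Real.exp (-(κ * ∑ p ∈ S, (fun _ : ℕ => γ₀) p ^ g))) ≤
      16 ^ g * (H : ℝ) ^ (5 * g) * Real.exp (-(Real.log H) ^ c₀) := by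
    rw [e2]
    calc (((primorial Y : ℝ) ^ e) ^ (t + 1)) ^ g * ((16 * (H : ℝ) ^ 5) ^ g * Real.exp (-(κ * (S.card * γ₀ ^ g)))) ≤
          Real.exp ((g : ℝ) * (((t : ℝ) + 1) * e * Y * Real.log 4)) *
            ((16 * (H : ℝ) ^ 5) ^ g * Real.exp (-(κ * (S.card * γ₀ ^ g)))) :=
          mul_le_mul_of_nonneg_right e1 (by positivity)
      _ = 16 ^ g * (H : ℝ) ^ (5 * g) *
            Real.exp ((g : ℝ) * (((t : ℝ) + 1) * e * Y * Real.log 4) - κ * (S.card * γ₀ ^ g)) := by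
          rw [sub_eq_add_neg, Real.exp_add, mul_pow, pow_mul]
          ring
      _ ≤ 16 ^ g * (H : ℝ) ^ (5 * g) * Real.exp (-(Real.log H) ^ c₀) := by
          refine mul_le_mul_of_nonneg_left (Real.exp_le_exp.2 ?_) (by positivity)
          linarith
  have e4 : (1 + Real.log H) / 2 ^ t ≤ Real.exp (-(Real.log H) ^ c₀) := by
    rw [div_le_iff₀ (by positivity)]
    have a1 : (2 : ℝ) ^ t = Real.exp (t * Real.log 2) := by
      rw [← Real.log_pow, Real.exp_log (by positivity)]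
    calc 1 + Real.log H = Real.exp (Real.log (1 + Real.log H)) := (Real.exp_log (by linarith)).symm
      _ ≤ Real.exp (-(Real.log H) ^ c₀ + t * Real.log 2) := Real.exp_le_exp.2 (by linarith)
      _ = _ := by rw [Real.exp_add, a1]
  have e5 : (g : ℝ) * (C * (H : ℝ) ^ 5 * (1 + Real.log H) / 2 ^ t) * (16 * (H : ℝ) ^ 5) ^ (g - 1) ≤
      g * C * 16 ^ g * (H : ℝ) ^ (5 * g) * Real.exp (-(Real.log H) ^ c₀) := by
    calc (g : ℝ) * (C * (H : ℝ) ^ 5 * (1 + Real.log H) / 2 ^ t) * (16 * (H : ℝ) ^ 5) ^ (g - 1) =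
          C * ((g : ℝ) * ((H : ℝ) ^ 5 * (16 * (H : ℝ) ^ 5) ^ (g - 1))) * ((1 + Real.log H) / 2 ^ t) := by ring
      _ ≤ C * ((g : ℝ) * 16 ^ g * (H : ℝ) ^ (5 * g)) * ((1 + Real.log H) / 2 ^ t) := by
          refine mul_le_mul_of_nonneg_right (mul_le_mul_of_nonneg_left ?_ hC) (by positivity)
          exact GG_pow g (by linarith)
      _ ≤ C * ((g : ℝ) * 16 ^ g * (H : ℝ) ^ (5 * g)) * Real.exp (-(Real.log H) ^ c₀) :=
          mul_le_mul_of_nonneg_left e4 (by positivity)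
      _ = _ := by ring
  calc (4 * (H : ℝ)) ^ Fintype.card ι * ((((primorial Y : ℝ) ^ e) ^ (t + 1)) ^ g *
        ((16 * (H : ℝ) ^ 5) ^ g * Real.exp (-(κ * ∑ p ∈ S, (fun _ : ℕ => γ₀) p ^ g))) +
        g * (C * (H : ℝ) ^ 5 * (1 + Real.log H) / 2 ^ t) * (16 * (H : ℝ) ^ 5) ^ (g - 1)) ≤
        (4 * (H : ℝ)) ^ Fintype.card ι * (16 ^ g * (H : ℝ) ^ (5 * g) * Real.exp (-(Real.log H) ^ c₀) +
          g * C * 16 ^ g * (H : ℝ) ^ (5 * g) * Real.exp (-(Real.log H) ^ c₀)) :=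
        mul_le_mul_of_nonneg_left (add_le_add e3 e5) (by positivity)
    _ = _ := by
        rw [mul_pow, pow_add]
        ring

theorem coreG (hFR : FactR) (hFQ : FactQ) : ∃ c₀ : ℝ, 0 < c₀ ∧ ∀ (g N : ℕ) (κ : ℝ), 0 < κ → κ ≤ 1 → ∃ C : ℝ, ∀ H : ℕ,
    1 ≤ H → ∀ (ι : Type) [Fintype ι] [DecidableEq ι], Fintype.card ι = N →
    ∀ R : (p : ℕ) → (Fin g → Option (ZMod p × ZMod p)) → Set (ι → ZMod p), DensG R κ →
    (Nat.card (ZG H R) : ℝ) ≤ C * (H : ℝ) ^ (N + 5 * g) * Real.exp (-(Real.log H) ^ c₀) := by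
  classical
  obtain ⟨CR, hRR⟩ := hFR
  obtain ⟨c, hc, K₁, hP⟩ := hFQ
  obtain ⟨A, hA1, hA2, hsm⟩ := smooth
  have hD : ¬ IsSquare (-1 : ℤ) := by
    rintro ⟨r, hr⟩
    nlinarith [mul_self_nonneg r]
  obtain ⟨K, hK, x0, hx0, hSS⟩ := hsm (-1) hD
  obtain ⟨c₀, hc₀, hpar⟩ := par_gH K₁
  refine ⟨c₀, hc₀, fun g N κ hκ hκ1 => ?_⟩
  have hK0 : 0 < K := by linarith
  have hg : 0 < κ * c ^ g / K := by positivity
  obtain ⟨H₀, hH₀⟩ := hpar g K (κ * c ^ g / K) hK hg x0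
  set M : ℝ := max CR 0 with hM
  have hM0 : 0 ≤ M := le_max_right _ _
  have hbad : ∀ H : ℕ, 1 ≤ H → ∀ t : ℕ,
      (Nat.card {z : ℤ × ℤ // |z.1| ≤ (H : ℤ) ^ 2 ∧ |z.2| ≤ (H : ℤ) ^ 3 ∧ dsc z.1 z.2 ≠ 0 ∧
        ¬ Few z.1 z.2 t} : ℝ) * 2 ^ t ≤ M * (H : ℝ) ^ 5 * (1 + Real.log H) := by
    intro H hH t
    have hHr : (1 : ℝ) ≤ H := by exact_mod_cast hH
    have hlogH : 0 ≤ Real.log H := Real.log_nonneg hHr
    refine (hRR H hH t).trans ?_
    refine mul_le_mul_of_nonneg_right ?_ (by linarith)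
    exact mul_le_mul_of_nonneg_right (le_max_left _ _) (by positivity)
  set C1 : ℝ := 4 ^ N * (16 ^ g + g * M * 16 ^ g) with hC1
  set C2 : ℝ := 4 ^ N * (16 ^ g + g * (M * (1 + Real.log H₀)) * 16 ^ g) * Real.exp ((Real.log H₀) ^ c₀) with hC2
  refine ⟨max C1 C2, fun H hH ι _ _ hι R hR => ?_⟩
  subst hι
  have hHr : (1 : ℝ) ≤ H := by exact_mod_cast hH
  have hlogH : 0 ≤ Real.log H := Real.log_nonneg hHr
  have hE : 0 < Real.exp (-(Real.log H) ^ c₀) := Real.exp_pos _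
  rcases lt_or_ge H H₀ with hlt | hge
  · -- small `H`
    have h2 := totalG hκ.le hκ1 hR hM0 (hbad H hH 0) ∅ (X := 0) (U := 1) (Y := 4) (e := 0)
      (fun p hp => absurd hp (notMem_empty p)) le_rfl (by norm_num) (by norm_num) (by norm_num)
      (by rw [prod_empty]; exact hH) (fun _ => 0) (fun p hp => absurd hp (notMem_empty p))
      (fun p hp => absurd hp (notMem_empty p))
    refine h2.trans ?_
    have hle : (H : ℝ) ≤ H₀ := by exact_mod_cast hlt.le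
    have hl : Real.log H ≤ Real.log H₀ := Real.log_le_log (by linarith) hle
    have hl0 : 0 ≤ Real.log H₀ := hlogH.trans hl
    have e1 : (g : ℝ) * (M * (H : ℝ) ^ 5 * (1 + Real.log H) / 2 ^ 0) * (16 * (H : ℝ) ^ 5) ^ (g - 1) ≤
        g * (M * (1 + Real.log H₀)) * 16 ^ g * (H : ℝ) ^ (5 * g) := by
      rw [pow_zero, div_one]
      calc (g : ℝ) * (M * (H : ℝ) ^ 5 * (1 + Real.log H)) * (16 * (H : ℝ) ^ 5) ^ (g - 1) =
            (M * (1 + Real.log H)) * ((g : ℝ) * ((H : ℝ) ^ 5 * (16 * (H : ℝ) ^ 5) ^ (g - 1))) := by ring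
        _ ≤ (M * (1 + Real.log H₀)) * ((g : ℝ) * 16 ^ g * (H : ℝ) ^ (5 * g)) := by
            refine mul_le_mul ?_ (GG_pow g (by linarith)) (by positivity) (by positivity)
            exact mul_le_mul_of_nonneg_left (by linarith) hM0
        _ = _ := by ring
    have e2 : (4 * (H : ℝ)) ^ Fintype.card ι * ((((primorial 4 : ℝ) ^ 0) ^ (0 + 1)) ^ g *
        ((16 * (H : ℝ) ^ 5) ^ g * Real.exp (-(κ * ∑ p ∈ (∅ : Finset ℕ), (fun _ : ℕ => (0 : ℝ)) p ^ g))) +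
          g * (M * (H : ℝ) ^ 5 * (1 + Real.log H) / 2 ^ 0) * (16 * (H : ℝ) ^ 5) ^ (g - 1)) ≤
        (4 ^ Fintype.card ι * (16 ^ g + g * (M * (1 + Real.log H₀)) * 16 ^ g)) *
          (H : ℝ) ^ (Fintype.card ι + 5 * g) := by
      rw [sum_empty, mul_zero, neg_zero, Real.exp_zero, mul_one, pow_zero, one_pow, one_pow, one_mul]
      calc (4 * (H : ℝ)) ^ Fintype.card ι * ((16 * (H : ℝ) ^ 5) ^ g +
              g * (M * (H : ℝ) ^ 5 * (1 + Real.log H) / 2 ^ 0) * (16 * (H : ℝ) ^ 5) ^ (g - 1)) ≤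
            (4 * (H : ℝ)) ^ Fintype.card ι * ((16 * (H : ℝ) ^ 5) ^ g +
              g * (M * (1 + Real.log H₀)) * 16 ^ g * (H : ℝ) ^ (5 * g)) :=
            mul_le_mul_of_nonneg_left (by linarith) (by positivity)
        _ = _ := by
            rw [mul_pow, mul_pow, pow_add, ← pow_mul]
            ring
    refine e2.trans ?_
    have e3 : 1 ≤ Real.exp ((Real.log H₀) ^ c₀) * Real.exp (-(Real.log H) ^ c₀) := by
      rw [← Real.exp_add]
      refine Real.one_le_exp ?_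
      have := Real.rpow_le_rpow hlogH hl hc₀.le
      linarith
    have e4 : 0 ≤ 4 ^ Fintype.card ι * (16 ^ g + g * (M * (1 + Real.log H₀)) * 16 ^ g) *
        (H : ℝ) ^ (Fintype.card ι + 5 * g) := by
      positivity
    calc (4 ^ Fintype.card ι * (16 ^ g + g * (M * (1 + Real.log H₀)) * 16 ^ g)) *
            (H : ℝ) ^ (Fintype.card ι + 5 * g) ≤
          (4 ^ Fintype.card ι * (16 ^ g + g * (M * (1 + Real.log H₀)) * 16 ^ g)) *
            (H : ℝ) ^ (Fintype.card ι + 5 * g) *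
            (Real.exp ((Real.log H₀) ^ c₀) * Real.exp (-(Real.log H) ^ c₀)) := le_mul_of_one_le_right e4 e3
      _ = C2 * (H : ℝ) ^ (Fintype.card ι + 5 * g) * Real.exp (-(Real.log H) ^ c₀) := by
          rw [hC2]
          ring
      _ ≤ max C1 C2 * (H : ℝ) ^ (Fintype.card ι + 5 * g) * Real.exp (-(Real.log H) ^ c₀) := by
          refine mul_le_mul_of_nonneg_right ?_ hE.le
          exact mul_le_mul_of_nonneg_right (le_max_right _ _) (by positivity)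
  · obtain ⟨X, U, t, e, Y, hxX, hq, h11, hU1, hUK, hUX, hUl, he, hY, hX, hl, ht⟩ := hH₀ H hge
    have hX2' : (2 : ℝ) ≤ X := hx0.trans hxX
    have hlX : 0 < Real.log X := Real.log_pos (by linarith)
    set S₀ := SS (-1) A K (X : ℝ) with hS₀
    have hcard := hSS (X : ℝ) hxX
    rw [← hS₀] at hcard
    have hmem : ∀ p ∈ S₀, p.Prime ∧ 11 ≤ p ∧ p ≤ X ∧ U ^ K₁ ≤ p := by
      intro p hp
      rw [hS₀] at hp
      unfold SS at hp
      rw [mem_filter, mem_Ioc] at hp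
      obtain ⟨⟨a1, a2⟩, a3, -⟩ := hp
      have a4 : (X : ℝ) / K < p := (Nat.floor_lt (by positivity)).1 a1
      rw [Nat.floor_natCast] at a2
      refine ⟨a3, ?_, a2, ?_⟩
      · have : (11 : ℝ) < p := by linarith
        have h3 : (11 : ℕ) < p := by exact_mod_cast this
        omega
      · have : ((U ^ K₁ : ℕ) : ℝ) < p := by
          push_cast
          linarith
        exact (by exact_mod_cast this : U ^ K₁ < p).le
    have hlp : ∀ p ∈ S₀, 0 < Real.log p ∧ Real.log p ≤ Real.log X := by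
      intro p hp
      obtain ⟨a1, a2, a3, -⟩ := hmem p hp
      have b1 : (11 : ℝ) ≤ p := by exact_mod_cast a2
      have b2 : (p : ℝ) ≤ X := by exact_mod_cast a3
      exact ⟨Real.log_pos (by linarith), Real.log_le_log (by linarith) b2⟩
    have hfin : 4 ^ Fintype.card ι * (16 ^ g + g * M * 16 ^ g) * (H : ℝ) ^ (Fintype.card ι + 5 * g) *
        Real.exp (-(Real.log H) ^ c₀) ≤
        max C1 C2 * (H : ℝ) ^ (Fintype.card ι + 5 * g) * Real.exp (-(Real.log H) ^ c₀) := by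
      refine mul_le_mul_of_nonneg_right ?_ hE.le
      exact mul_le_mul_of_nonneg_right (le_max_left _ _) (by positivity)
    refine le_trans ?_ hfin
    refine GG_step hκ.le hκ1 hR hM0 hH (hbad H hH t) S₀ (X := X) (U := U) (Y := Y) (e := e)
      (γ₀ := c / Real.log X) ?_ hU1 hY hX he hq (by positivity) ?_ ?_ ht
    · intro p hp
      obtain ⟨a1, a2, a3, -⟩ := hmem p hp
      exact ⟨a1, a2, a3⟩
    · intro p hp
      obtain ⟨b1, b2⟩ := hlp p hp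
      obtain ⟨d1, -, -, d2⟩ := hmem p hp
      have a1 := hP U hUK p d1 d2 ((mul_le_mul_of_nonneg_left b2 (Nat.cast_nonneg _)).trans hUl)
      refine le_trans ?_ a1
      rw [div_mul_eq_mul_div]
      exact div_le_div_of_nonneg_left (by positivity) b1 b2
    · refine hl.trans ?_
      have e1 : κ * c ^ g / K * X / (Real.log X) ^ (g + 1) =
          κ * ((X / (K * Real.log X)) * (c / Real.log X) ^ g) := by
        rw [div_pow, pow_succ]
        field_simp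
      rw [e1]
      exact mul_le_mul_of_nonneg_left (mul_le_mul_of_nonneg_right hcard (by positivity)) hκ.le

end MWS
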