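import Pool.Agent.Lib.MP_10e784_agBG.GDefs
import Pool.Agent.Lib.MP_10e784_agV.VD3

/-!
# LEAF GH: the densities of the local conditions

PROOFS.  `tv_ne`: `tv z k₀ = 1` for `k₀ l = inl (Fin.last _)` if `z l = none` and `inl 0` otherwise (as in the private part of `agV/V2`).
`dens_RG1`: `card_fib` (`agV/VD1`) with `κ = Unit`, `ι = Tn d`, `w = tv z`, and the number of the squares `≤ 2 p / 3`, exactly as `dens_sq` there (copy its private lemma `vd_sq`).
`dens_RG2`: `card_fib` with `κ = Fin (n + 1)`, `w = tv z`, and `forms` (`agV/VD2`), exactly as `dens_form` of `agV/VD3`; `card (Fin (n + 1) × Tn d) = (n + 1) * card (Tn d)`.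
`dens_RG3`: `RG3 d p z ⊆ {c | SA c z j₀ = 0}`, `j₀ = ⟨0, hJ⟩`; `SA c z j₀` is a linear form of `c` with a coefficient `1`, so at most `p ^ (N - 1)`, i.e. `#.. * p ≤ p ^ N` (fix all the coordinates but one: an injection into the
functions on the other coordinates; or `card_fib` with `κ = Unit` and `w t = if t.1 = j₀ then .. else 0`), `1 / p ≤ 1 / 2`.
-/

set_option autoImplicit false

namespace MWS

open Finset

private theorem GH_bv {F : Type*} [Field F] {d : ℕ} (z : Option (F × F)) : ∃ k : Bs d, bv z k = 1 := by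
  cases z with
  | none =>
    refine ⟨.inl (Fin.last d), ?_⟩
    show (if Fin.last d = Fin.last d then (1 : F) else 0) = 1
    rw [if_pos rfl]
  | some z =>
    refine ⟨.inl 0, ?_⟩
    show z.1 ^ ((0 : Fin (d + 1)) : ℕ) = 1
    rw [Fin.val_zero, pow_zero]

theorem tv_ne {F : Type*} [Field F] {g : ℕ} {d : Fin g → ℕ} (z : Fin g → Option (F × F)) : ∃ k : Tn d, tv z k = 1 := by
  have h : ∀ l : Fin g, ∃ k : Bs (d l), bv (z l) k = 1 := fun l => GH_bv (z l)
  choose k hk using h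
  refine ⟨k, ?_⟩
  unfold tv
  exact Finset.prod_eq_one fun l _ => hk l

private theorem GH_sq {p : ℕ} [Fact p.Prime] : Nat.card {x : ZMod p // IsSquare x} ≤ p / 2 + 1 := by
  classical
  have hp : NeZero p := ⟨(Fact.out : p.Prime).ne_zero⟩
  have h1 : ∀ x : {x : ZMod p // IsSquare x}, ∃ m : Fin (p / 2 + 1), (((m : ℕ) : ZMod p) * ((m : ℕ) : ZMod p)) = x.1 := by
    rintro ⟨x, r, rfl⟩
    refine ⟨⟨r.valMinAbs.natAbs, by have := ZMod.natAbs_valMinAbs_le r; omega⟩, ?_⟩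
    show ((r.valMinAbs.natAbs : ℕ) : ZMod p) * ((r.valMinAbs.natAbs : ℕ) : ZMod p) = r * r
    have h2 : ((r.valMinAbs.natAbs : ℕ) : ZMod p) * ((r.valMinAbs.natAbs : ℕ) : ZMod p) =
        ((r.valMinAbs * r.valMinAbs : ℤ) : ZMod p) := by
      rw [← Int.natAbs_mul_self, Int.cast_natCast, Nat.cast_mul]
    rw [h2, Int.cast_mul, ZMod.coe_valMinAbs]
  choose f hf using h1
  have hinj : Function.Injective f := by
    intro x y hxy
    refine Subtype.ext ?_
    rw [← hf x, ← hf y, hxy]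
  have h2 := Nat.card_le_card_of_injective f hinj
  rwa [Nat.card_eq_fintype_card (α := Fin (p / 2 + 1)), Fintype.card_fin] at h2

/-- one linear form -/
private theorem GH_one {p : ℕ} [Fact p.Prime] {ι : Type} [Fintype ι] (w : ι → ZMod p) (hw : ∃ k, w k ≠ 0)
    (S : Set (ZMod p)) : Nat.card {c : ι → ZMod p // (∑ k, c k * w k) ∈ S} * p = Nat.card S * p ^ Fintype.card ι := by
  classical
  have h1 := card_fib (κ := Unit) w hw {f : Unit → ZMod p | f () ∈ S}
  have h3 : Nat.card {c : Unit × ι → ZMod p // (fun i => ∑ k, c (i, k) * w k) ∈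
      {f : Unit → ZMod p | f () ∈ S}} = Nat.card {c : ι → ZMod p // (∑ k, c k * w k) ∈ S} := by
    refine Nat.card_congr
      { toFun := fun c => ⟨fun k => c.1 ((), k), c.2⟩
        invFun := fun c => ⟨fun t => c.1 t.2, c.2⟩
        left_inv := fun c => rfl
        right_inv := fun c => rfl }
  have h4 : Nat.card {f : Unit → ZMod p | f () ∈ S} = Nat.card S := by
    refine Nat.card_congr
      { toFun := fun f => ⟨f.1 (), f.2⟩
        invFun := fun x => ⟨fun _ => x.1, x.2⟩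
        left_inv := fun c => rfl
        right_inv := fun c => rfl }
  rw [h3, h4, Fintype.card_unit, one_mul, pow_one] at h1
  exact h1

theorem dens_RG1 {g : ℕ} (d : Fin g → ℕ) : DensG (RG1 d) (1 / 3) := by
  intro p hpp hp z
  have : Fact p.Prime := ⟨hpp⟩
  obtain ⟨k, hk⟩ := tv_ne (d := d) z
  have h1 := GH_one (tv (d := d) z) ⟨k, by rw [hk]; exact one_ne_zero⟩ {x | IsSquare x}
  have h2 : Nat.card (RG1 d p z) = Nat.card {c : Tn d → ZMod p // (∑ k, c k * tv z k) ∈ {x | IsSquare x}} := rfl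
  have h3 : Nat.card ({x | IsSquare x} : Set (ZMod p)) = Nat.card {x : ZMod p // IsSquare x} := rfl
  rw [← h2, h3] at h1
  have hodd : p % 2 = 1 := by
    rcases hpp.eq_two_or_odd with h | h
    · omega
    · exact h
  have h6 : (Nat.card {x : ZMod p // IsSquare x} : ℝ) ≤ 2 / 3 * (p : ℝ) := by
    have h7 : 3 * Nat.card {x : ZMod p // IsSquare x} ≤ 2 * p := by
      have := GH_sq (p := p)
      omega
    have h8 : (3 : ℝ) * (Nat.card {x : ZMod p // IsSquare x} : ℝ) ≤ 2 * (p : ℝ) := by exact_mod_cast h7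
    linarith
  have hp0 : (0 : ℝ) < (p : ℝ) := by exact_mod_cast hpp.pos
  have h9 : (Nat.card (RG1 d p z) : ℝ) * (p : ℝ) =
      (Nat.card {x : ZMod p // IsSquare x} : ℝ) * (p : ℝ) ^ Fintype.card (Tn d) := by exact_mod_cast h1
  have h10 : 0 ≤ (p : ℝ) ^ Fintype.card (Tn d) := by positivity
  refine le_of_mul_le_mul_right ?_ hp0
  rw [h9]
  calc (Nat.card {x : ZMod p // IsSquare x} : ℝ) * (p : ℝ) ^ Fintype.card (Tn d) ≤
        2 / 3 * (p : ℝ) * (p : ℝ) ^ Fintype.card (Tn d) := mul_le_mul_of_nonneg_right h6 h10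
    _ = (1 - 1 / 3) * (p : ℝ) ^ Fintype.card (Tn d) * (p : ℝ) := by ring

theorem dens_RG2 {g n : ℕ} (hn : 2 ≤ n) (d : Fin g → ℕ) : DensG (RG2 n d) (1 / 6) := by
  classical
  intro p hpp hp z
  have : Fact p.Prime := ⟨hpp⟩
  obtain ⟨k, hk⟩ := tv_ne (d := d) z
  have h1 := card_fib (κ := Fin (n + 1)) (ι := Tn d) (tv z) ⟨k, by rw [hk]; exact one_ne_zero⟩
    {t : Fin (n + 1) → ZMod p | ∃ a b : ZMod p, (a ≠ 0 ∨ b ≠ 0) ∧
      ∑ i : Fin (n + 1), t i * a ^ (i : ℕ) * b ^ (n - (i : ℕ)) = 0}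
  have h2 := forms hp hn
  rw [Fintype.card_fin] at h1
  have hc : Fintype.card (Fin (n + 1) × Tn d) = (n + 1) * Fintype.card (Tn d) := by
    rw [Fintype.card_prod, Fintype.card_fin]
  have hp0 : (0 : ℝ) < (p : ℝ) ^ (n + 1) := by
    have : (0 : ℝ) < p := by exact_mod_cast hpp.pos
    positivity
  have h3 : (Nat.card (RG2 n d p z) : ℝ) * (p : ℝ) ^ (n + 1) =
      (Nat.card {t : Fin (n + 1) → ZMod p // ∃ a b : ZMod p, (a ≠ 0 ∨ b ≠ 0) ∧
      ∑ i : Fin (n + 1), t i * a ^ (i : ℕ) * b ^ (n - (i : ℕ)) = 0} : ℝ) *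
        (p : ℝ) ^ ((n + 1) * Fintype.card (Tn d)) := by
    exact_mod_cast h1
  have h4 : (Nat.card (RG2 n d p z) : ℝ) * (p : ℝ) ^ (n + 1) ≤
      ((1 - 1 / 6) * (p : ℝ) ^ ((n + 1) * Fintype.card (Tn d))) * (p : ℝ) ^ (n + 1) := by
    rw [h3]
    calc _ ≤ ((1 - 1 / 6) * (p : ℝ) ^ (n + 1)) * (p : ℝ) ^ ((n + 1) * Fintype.card (Tn d)) :=
          mul_le_mul_of_nonneg_right h2 (by positivity)
      _ = _ := by ring
  rw [hc]
  exact le_of_mul_le_mul_right h4 hp0

theorem dens_RG3 {g J : ℕ} (hJ : 1 ≤ J) (d : Fin J → Fin g → ℕ) : DensG (RG3 d) (1 / 2) := by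
  classical
  intro p hpp hp z
  have : Fact p.Prime := ⟨hpp⟩
  obtain ⟨j₀, hj₀⟩ : ∃ j₀ : Fin J, (j₀ : ℕ) = 0 := ⟨⟨0, hJ⟩, rfl⟩
  obtain ⟨k, hk⟩ := tv_ne (d := d j₀) z
  let w : CA d → ZMod p := fun t => if t.1 = j₀ then ∏ l, bv (z l) (t.2 l) else 0
  have hw : ∀ t, w t = if t.1 = j₀ then ∏ l, bv (z l) (t.2 l) else 0 := fun t => rfl
  have hw0 : ∃ t, w t ≠ 0 := by
    refine ⟨⟨j₀, k⟩, ?_⟩
    rw [hw, if_pos rfl]
    have h : ∏ l, bv (z l) (k l) = (1 : ZMod p) := hk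
    show ∏ l, bv (z l) (k l) ≠ (0 : ZMod p)
    rw [h]
    exact one_ne_zero
  have hs : ∀ c : CA d → ZMod p, ∑ t, c t * w t = SA c z j₀ := by
    intro c
    rw [← Finset.univ_sigma_univ, Finset.sum_sigma, Finset.sum_eq_single j₀]
    · unfold SA
      refine Finset.sum_congr rfl fun k' _ => ?_
      rw [hw, if_pos rfl]
    · intro j _ hj
      refine Finset.sum_eq_zero fun k' _ => ?_
      rw [hw, if_neg hj, mul_zero]
    · intro h
      exact absurd (Finset.mem_univ _) h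
  have h1 := GH_one w hw0 {0}
  have h0 : Nat.card ({0} : Set (ZMod p)) = 1 := Nat.card_unique
  rw [h0, one_mul] at h1
  have h2 : Nat.card (RG3 d p z) ≤ Nat.card {c : CA d → ZMod p // (∑ k, c k * w k) ∈ ({0} : Set (ZMod p))} := by
    refine Nat.card_le_card_of_injective (fun c => ⟨c.1, ?_⟩) ?_
    · rw [hs c.1]
      exact c.2 j₀
    · intro c c' h
      have h3 := congrArg (fun x : {c : CA d → ZMod p // (∑ k, c k * w k) ∈ ({0} : Set (ZMod p))} => x.1) h
      exact Subtype.ext h3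
  have hp0 : (0 : ℝ) < (p : ℝ) := by exact_mod_cast hpp.pos
  have hp2 : (2 : ℝ) ≤ (p : ℝ) := by exact_mod_cast hpp.two_le
  have h3 : (Nat.card (RG3 d p z) : ℝ) * p ≤ (p : ℝ) ^ Fintype.card (CA d) := by
    have h4 : Nat.card (RG3 d p z) * p ≤ p ^ Fintype.card (CA d) := by
      rw [← h1]
      exact Nat.mul_le_mul_right p h2
    exact_mod_cast h4
  have h5 : (0 : ℝ) ≤ (p : ℝ) ^ Fintype.card (CA d) := by positivity
  refine le_of_mul_le_mul_right ?_ hp0
  refine h3.trans ?_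
  nlinarith

end MWS
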