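import Pool.Agent.Lib.MP_10e784_agBG.GDefs

/-!
# LEAF GI1: the local condition for the double covers

PROOF of `bv_red_sq` (see the proof of `bv_red`, `agV/VB1`, and copy its private lemmas `VB1r_*`).  `P = O`, or `P = (x, y)` with `p ∤ x.den`: `s = 1`.  `p ∣ x.den`: with `t = x⁻¹` (residue `0`) one has
`(y t²)² = t + A t³ + B t⁴ = t v`, `v = 1 + A t² + B t³` with residue `1`; `s = (y t²) ^ d`, so `s² = t ^ d v ^ d`, and `t ^ d bv (op P) k` has residue `bv none k` (case `p ∣ x.den` of `bv_red`), `v ^ d` has residue `1`;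
`s ≠ 0`: `y = 0` would give `(y t²)² = 0 = t v`, `t ≠ 0`, and `v ≠ 0` because its residue is `1`.
PROOF of `adm_RG1`.  Multiply `∑ a k tv k = w²` by `∏ s_l²`: a rational square which is integral at `p` with residue `∑ (a k : ZMod p) tv (fun l => rd p (P l)) k` (sums and products of `VB2r_sum`, `VB2r_prod` of `agV/VB2`, private: copy);
`(∏ s_l w)²` integral at `p`: so `∏ s_l w` is integral at `p` (`int_of_sq`) and the residue of the square is the square of the residue.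
-/

set_option autoImplicit false

namespace MWS

open Finset

/-- `p`-integral with residue `r` -/
private def GI1r (p : ℕ) (x : ℚ) (r : ZMod p) : Prop := ¬ p ∣ x.den ∧ rc p x = r

private theorem GI1r_add {p : ℕ} (hp : p.Prime) {x y : ℚ} {r s : ZMod p} (hx : GI1r p x r) (hy : GI1r p y s) :
    GI1r p (x + y) (r + s) := by
  have h := rc_add hp hx.1 hy.1
  exact ⟨h.1, by rw [h.2, hx.2, hy.2]⟩

private theorem GI1r_mul {p : ℕ} (hp : p.Prime) {x y : ℚ} {r s : ZMod p} (hx : GI1r p x r) (hy : GI1r p y s) :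
    GI1r p (x * y) (r * s) := by
  have h := rc_mul hp hx.1 hy.1
  exact ⟨h.1, by rw [h.2, hx.2, hy.2]⟩

private theorem GI1r_int {p : ℕ} (hp : p.Prime) (a : ℤ) : GI1r p (a : ℚ) (a : ZMod p) := rc_int hp a

private theorem GI1r_one {p : ℕ} (hp : p.Prime) : GI1r p 1 1 := by
  have h := GI1r_int hp 1
  simpa using h

private theorem GI1r_zero {p : ℕ} (hp : p.Prime) : GI1r p 0 0 := by
  have h := GI1r_int hp 0
  simpa using h

private theorem GI1r_pow {p : ℕ} (hp : p.Prime) {x : ℚ} {r : ZMod p} (hx : GI1r p x r) (n : ℕ) :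
    GI1r p (x ^ n) (r ^ n) := by
  induction n with
  | zero =>
    rw [pow_zero, pow_zero]
    exact GI1r_one hp
  | succ n ih =>
    rw [pow_succ, pow_succ]
    exact GI1r_mul hp ih hx

private theorem GI1r_sq {p : ℕ} (hp : p.Prime) {x : ℚ} {r : ZMod p} (h : GI1r p (x ^ 2) r) :
    GI1r p x (rc p x) ∧ rc p x ^ 2 = r := by
  have h1 := int_of_sq hp h.1
  have h2 : GI1r p x (rc p x) := ⟨h1, rfl⟩
  exact ⟨h2, by rw [← (GI1r_pow hp h2 2).2, h.2]⟩

private theorem GI1r_inv {p : ℕ} (hp : p.Prime) {x : ℚ} (hx : p ∣ x.den) : x ≠ 0 ∧ GI1r p x⁻¹ 0 := by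
  have h0 : x ≠ 0 := by
    rintro rfl
    exact hp.one_lt.ne' (Nat.dvd_one.1 hx)
  refine ⟨h0, ?_, ?_⟩
  · rw [Rat.den_inv_of_ne_zero h0]
    intro h
    exact hp.one_lt.ne' (Nat.dvd_one.1 (x.reduced ▸ Nat.dvd_gcd h hx))
  · unfold rc
    rw [Rat.num_inv, Int.cast_mul]
    have h1 : (((x.den : ℕ) : ℤ) : ZMod p) = 0 := by
      rw [Int.cast_natCast]
      exact (ZMod.natCast_eq_zero_iff _ _).2 hx
    rw [h1, mul_zero, zero_mul]

private theorem GI1r_sum {p : ℕ} (hp : p.Prime) {ι : Type*} (s : Finset ι) (f : ι → ℚ)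
    (g : ι → ZMod p) (h : ∀ i ∈ s, GI1r p (f i) (g i)) :
    GI1r p (∑ i ∈ s, f i) (∑ i ∈ s, g i) := by
  classical
  induction s using Finset.induction_on with
  | empty =>
    have h := GI1r_int hp 0
    simpa using h
  | insert a s ha ih =>
    rw [Finset.sum_insert ha, Finset.sum_insert ha]
    exact GI1r_add hp (h a (Finset.mem_insert_self a s))
      (ih fun i hi => h i (Finset.mem_insert_of_mem hi))

private theorem GI1r_prod {p : ℕ} (hp : p.Prime) {ι : Type*} (s : Finset ι) (f : ι → ℚ)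
    (g : ι → ZMod p) (h : ∀ i ∈ s, GI1r p (f i) (g i)) :
    GI1r p (∏ i ∈ s, f i) (∏ i ∈ s, g i) := by
  classical
  induction s using Finset.induction_on with
  | empty =>
    have h := GI1r_int hp 1
    simpa using h
  | insert a s ha ih =>
    rw [Finset.prod_insert ha, Finset.prod_insert ha]
    exact GI1r_mul hp (h a (Finset.mem_insert_self a s))
      (ih fun i hi => h i (Finset.mem_insert_of_mem hi))

private theorem GI1_red {p : ℕ} (hp : p.Prime) {α β : ℤ} {d : ℕ} (hd : 1 ≤ d) {x y : ℚ}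
    (he : y ^ 2 = x ^ 3 + (α : ℚ) * x + (β : ℚ)) (hx : p ∣ x.den) (k : Bs d) :
    GI1r p ((x⁻¹) ^ d * bv (some (x, y)) k) (bv (none : Option (ZMod p × ZMod p)) k) := by
  obtain ⟨hx0, ht⟩ := GI1r_inv hp hx
  set t : ℚ := x⁻¹ with htdef
  have hxt : x * t = 1 := mul_inv_cancel₀ hx0
  set s : ℚ := y * t ^ 2 with hsdef
  have hs2 : s ^ 2 = t + (α : ℚ) * t ^ 3 + (β : ℚ) * t ^ 4 := by
    have e1 : s ^ 2 = y ^ 2 * t ^ 4 := by rw [hsdef]; ring
    rw [e1, he]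
    have e2 : x ^ 3 * t ^ 4 = t := by
      have : x ^ 3 * t ^ 4 = (x * t) ^ 3 * t := by ring
      rw [this, hxt]; ring
    have e3 : x * t ^ 4 = t ^ 3 := by
      have : x * t ^ 4 = (x * t) * t ^ 3 := by ring
      rw [this, hxt]; ring
    linear_combination e2 + (α : ℚ) * e3
  have hs2r : GI1r p (s ^ 2) 0 := by
    rw [hs2]
    have h3 := GI1r_add hp (GI1r_add hp ht (GI1r_mul hp (GI1r_int hp α) (GI1r_pow hp ht 3)))
      (GI1r_mul hp (GI1r_int hp β) (GI1r_pow hp ht 4))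
    simpa using h3
  have hfact : Fact p.Prime := ⟨hp⟩
  have hs : GI1r p s 0 := by
    obtain ⟨h3, h4⟩ := GI1r_sq hp hs2r
    have h5 : rc p s = 0 := by
      have := pow_eq_zero_iff (two_ne_zero) |>.1 h4
      exact this
    rwa [h5] at h3
  rcases k with i | i
  · show GI1r p (t ^ d * x ^ (i : ℕ)) (if i = Fin.last d then 1 else 0)
    have hi : (i : ℕ) ≤ d := Nat.lt_succ_iff.1 i.2
    have e4 : t ^ d * x ^ (i : ℕ) = t ^ (d - (i : ℕ)) := by
      have e5 : t ^ d = t ^ (i : ℕ) * t ^ (d - (i : ℕ)) := by rw [← pow_add, Nat.add_sub_cancel' hi]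
      have e6 : x ^ (i : ℕ) * t ^ (i : ℕ) = 1 := by rw [← mul_pow, hxt, one_pow]
      rw [e5]
      linear_combination (t ^ (d - (i : ℕ))) * e6
    rw [e4]
    by_cases hl : i = Fin.last d
    · have h6 : (i : ℕ) = d := by rw [hl]; rfl
      rw [if_pos hl, h6, Nat.sub_self, pow_zero]
      exact GI1r_one hp
    · have h6 : (i : ℕ) < d := lt_of_le_of_ne hi fun h7 => hl (Fin.ext (by rw [h7]; rfl))
      rw [if_neg hl]
      have h7 := GI1r_pow hp ht (d - (i : ℕ))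
      rwa [zero_pow (by omega)] at h7
  · show GI1r p (t ^ d * (x ^ (i : ℕ) * y)) 0
    have hi : (i : ℕ) < d - 1 := i.2
    have hi2 : (i : ℕ) + 2 ≤ d := by omega
    have e4 : t ^ d * (x ^ (i : ℕ) * y) = t ^ (d - ((i : ℕ) + 2)) * s := by
      have e5 : t ^ d = t ^ (i : ℕ) * t ^ 2 * t ^ (d - ((i : ℕ) + 2)) := by
        rw [← pow_add, ← pow_add, Nat.add_sub_cancel' hi2]
      have e6 : x ^ (i : ℕ) * t ^ (i : ℕ) = 1 := by rw [← mul_pow, hxt, one_pow]
      rw [e5, hsdef]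
      linear_combination (t ^ 2 * y * t ^ (d - ((i : ℕ) + 2))) * e6
    rw [e4]
    have h7 := GI1r_mul hp (GI1r_pow hp ht (d - ((i : ℕ) + 2))) hs
    rwa [mul_zero] at h7

theorem bv_red_sq {p : ℕ} (hp : p.Prime) {A B : ℤ} {d : ℕ} (hd : 1 ≤ d) (P : Pt ℚ A B) :
    ∃ s : ℚ, s ≠ 0 ∧ ∀ k : Bs d,
      ¬ p ∣ (s ^ 2 * bv (op P) k).den ∧ rc p (s ^ 2 * bv (op P) k) = bv (rd p P) k := by
  have hfact : Fact p.Prime := ⟨hp⟩
  rcases P with _ | ⟨x, y, hxy⟩
  · refine ⟨1, one_ne_zero, fun k => ?_⟩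
    rw [one_pow, one_mul]
    show GI1r p (bv (none : Option (ℚ × ℚ)) k) (bv (none : Option (ZMod p × ZMod p)) k)
    rcases k with i | i
    · show GI1r p (if i = Fin.last d then 1 else 0) (if i = Fin.last d then 1 else 0)
      by_cases hi : i = Fin.last d
      · rw [if_pos hi, if_pos hi]
        exact GI1r_one hp
      · rw [if_neg hi, if_neg hi]
        exact GI1r_zero hp
    · exact GI1r_zero hp
  · have he : y ^ 2 = x ^ 3 + (A : ℚ) * x + (B : ℚ) := (EW_eqn A B x y).1 hxy.1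
    by_cases hx : p ∣ x.den
    · have h1 : rd p (.some x y hxy : Pt ℚ A B) = none := by
        show (if p ∣ x.den then none else some (rc p x, rc p y)) = none
        rw [if_pos hx]
      rw [h1]
      obtain ⟨hx0, ht⟩ := GI1r_inv hp hx
      have hxt : x * x⁻¹ = 1 := mul_inv_cancel₀ hx0
      have ht0 : x⁻¹ ≠ 0 := inv_ne_zero hx0
      have hv : GI1r p (1 + (A : ℚ) * (x⁻¹) ^ 2 + (B : ℚ) * (x⁻¹) ^ 3) 1 := by
        have h3 := GI1r_add hp (GI1r_add hp (GI1r_one hp) (GI1r_mul hp (GI1r_int hp A) (GI1r_pow hp ht 2)))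
          (GI1r_mul hp (GI1r_int hp B) (GI1r_pow hp ht 3))
        simpa using h3
      have hv0 : 1 + (A : ℚ) * (x⁻¹) ^ 2 + (B : ℚ) * (x⁻¹) ^ 3 ≠ 0 := by
        intro h0
        rw [h0] at hv
        have h4 := (GI1r_zero hp).2
        rw [hv.2] at h4
        exact one_ne_zero h4
      have hsq : (y * (x⁻¹) ^ 2) ^ 2 = x⁻¹ * (1 + (A : ℚ) * (x⁻¹) ^ 2 + (B : ℚ) * (x⁻¹) ^ 3) := by
        have e1 : (y * (x⁻¹) ^ 2) ^ 2 = y ^ 2 * (x⁻¹) ^ 4 := by ring
        rw [e1, he]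
        have e2 : x ^ 3 * (x⁻¹) ^ 4 = x⁻¹ := by
          have : x ^ 3 * (x⁻¹) ^ 4 = (x * x⁻¹) ^ 3 * x⁻¹ := by ring
          rw [this, hxt]; ring
        have e3 : x * (x⁻¹) ^ 4 = (x⁻¹) ^ 3 := by
          have : x * (x⁻¹) ^ 4 = (x * x⁻¹) * (x⁻¹) ^ 3 := by ring
          rw [this, hxt]; ring
        linear_combination e2 + (A : ℚ) * e3
      have hs0 : y * (x⁻¹) ^ 2 ≠ 0 := by
        intro h0
        rw [h0, zero_pow two_ne_zero] at hsq
        exact mul_ne_zero ht0 hv0 hsq.symm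
      refine ⟨(y * (x⁻¹) ^ 2) ^ d, pow_ne_zero _ hs0, fun k => ?_⟩
      have e : ((y * (x⁻¹) ^ 2) ^ d) ^ 2 * bv (op (.some x y hxy : Pt ℚ A B)) k =
          (1 + (A : ℚ) * (x⁻¹) ^ 2 + (B : ℚ) * (x⁻¹) ^ 3) ^ d * ((x⁻¹) ^ d * bv (some (x, y)) k) := by
        have e1 : ((y * (x⁻¹) ^ 2) ^ d) ^ 2 = ((y * (x⁻¹) ^ 2) ^ 2) ^ d := pow_right_comm _ _ _
        rw [e1, hsq, mul_pow]
        show (x⁻¹) ^ d * (1 + (A : ℚ) * (x⁻¹) ^ 2 + (B : ℚ) * (x⁻¹) ^ 3) ^ d * bv (some (x, y)) k = _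
        ring
      rw [e]
      have h5 := GI1r_mul hp (GI1r_pow hp hv d) (GI1_red hp hd he hx k)
      rw [one_pow, one_mul] at h5
      exact h5
    · have h1 : rd p (.some x y hxy : Pt ℚ A B) = some (rc p x, rc p y) := by
        show (if p ∣ x.den then none else some (rc p x, rc p y)) = some (rc p x, rc p y)
        rw [if_neg hx]
      rw [h1]
      have hy : ¬ p ∣ y.den := fun h2 => hx ((den_xy hp he).2 h2)
      refine ⟨1, one_ne_zero, fun k => ?_⟩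
      rw [one_pow, one_mul]
      rcases k with i | i
      · show GI1r p (x ^ (i : ℕ)) (rc p x ^ (i : ℕ))
        exact GI1r_pow hp ⟨hx, rfl⟩ _
      · show GI1r p (x ^ (i : ℕ) * y) (rc p x ^ (i : ℕ) * rc p y)
        exact GI1r_mul hp (GI1r_pow hp ⟨hx, rfl⟩ _) ⟨hy, rfl⟩

theorem adm_RG1 {g : ℕ} {A B : Fin g → ℤ} {d : Fin g → ℕ} (hd : ∀ l, 1 ≤ d l) (a : Tn d → ℤ)
    (P : (l : Fin g) → Pt ℚ (A l) (B l)) (h : IsSquare (∑ k, (a k : ℚ) * tv (fun l => op (P l)) k)) :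
    AdmG (RG1 d) a P := by
  intro p hp _ _
  choose s hs0 hs using fun l => bv_red_sq hp (hd l) (P l)
  obtain ⟨w, hw⟩ := h
  have h1 : GI1r p ((∏ l, s l) ^ 2 * ∑ k, (a k : ℚ) * tv (fun l => op (P l)) k)
      (∑ k, ((a k : ℤ) : ZMod p) * tv (fun l => rd p (P l)) k) := by
    rw [Finset.mul_sum]
    refine GI1r_sum hp _ _ _ fun k _ => ?_
    have e1 : (∏ l, s l) ^ 2 * (((a k : ℤ) : ℚ) * tv (fun l => op (P l)) k) =
        ((a k : ℤ) : ℚ) * ∏ l, (s l ^ 2 * bv (op (P l)) (k l)) := by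
      unfold tv
      rw [Finset.prod_mul_distrib, Finset.prod_pow]
      ring
    rw [e1]
    unfold tv
    exact GI1r_mul hp (GI1r_int hp _) (GI1r_prod hp _ _ _ fun l _ => hs l (k l))
  rw [hw] at h1
  have e2 : (∏ l, s l) ^ 2 * (w * w) = ((∏ l, s l) * w) ^ 2 := by ring
  rw [e2] at h1
  obtain ⟨_, h3⟩ := GI1r_sq hp h1
  show IsSquare (∑ k, ((a k : ℤ) : ZMod p) * tv (fun l => rd p (P l)) k)
  exact ⟨rc p ((∏ l, s l) * w), by rw [← h3, sq]⟩

end MWS
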