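import Pool.Agent.Lib.MP_10e784_agBG.GDefs

/-!
# LEAF GI2: the local conditions for the other two families

PROOF of `adm_RG2`: as `locB` of `agV/VB2` with `bv_red` for every `l` (multiply by `∏ lam_l`, as in `locA`); copy the private lemmas `VB2r_*`, `VB2_scale`.
PROOF of `adm_RG3`: `locA`.
-/

set_option autoImplicit false

namespace MWS

open Finset

/-- `p`-integral with residue `r` -/
private def GI2r (p : ℕ) (x : ℚ) (r : ZMod p) : Prop := ¬ p ∣ x.den ∧ rc p x = r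

private theorem GI2r_add {p : ℕ} (hp : p.Prime) {x y : ℚ} {r s : ZMod p} (hx : GI2r p x r)
    (hy : GI2r p y s) : GI2r p (x + y) (r + s) := by
  have h := rc_add hp hx.1 hy.1
  exact ⟨h.1, by rw [h.2, hx.2, hy.2]⟩

private theorem GI2r_mul {p : ℕ} (hp : p.Prime) {x y : ℚ} {r s : ZMod p} (hx : GI2r p x r)
    (hy : GI2r p y s) : GI2r p (x * y) (r * s) := by
  have h := rc_mul hp hx.1 hy.1
  exact ⟨h.1, by rw [h.2, hx.2, hy.2]⟩

private theorem GI2r_int {p : ℕ} (hp : p.Prime) (a : ℤ) : GI2r p (a : ℚ) (a : ZMod p) := rc_int hp a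

private theorem GI2r_pow {p : ℕ} (hp : p.Prime) {x : ℚ} {r : ZMod p} (hx : GI2r p x r) (n : ℕ) :
    GI2r p (x ^ n) (r ^ n) := by
  induction n with
  | zero =>
    have h := GI2r_int hp 1
    simpa using h
  | succ n ih =>
    rw [pow_succ, pow_succ]
    exact GI2r_mul hp ih hx

private theorem GI2r_sum {p : ℕ} (hp : p.Prime) {ι : Type*} (s : Finset ι) (f : ι → ℚ)
    (g : ι → ZMod p) (h : ∀ i ∈ s, GI2r p (f i) (g i)) :
    GI2r p (∑ i ∈ s, f i) (∑ i ∈ s, g i) := by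
  classical
  induction s using Finset.induction_on with
  | empty =>
    have h := GI2r_int hp 0
    simpa using h
  | insert a s ha ih =>
    rw [Finset.sum_insert ha, Finset.sum_insert ha]
    exact GI2r_add hp (h a (Finset.mem_insert_self a s))
      (ih fun i hi => h i (Finset.mem_insert_of_mem hi))

private theorem GI2r_prod {p : ℕ} (hp : p.Prime) {ι : Type*} (s : Finset ι) (f : ι → ℚ)
    (g : ι → ZMod p) (h : ∀ i ∈ s, GI2r p (f i) (g i)) :
    GI2r p (∏ i ∈ s, f i) (∏ i ∈ s, g i) := by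
  classical
  induction s using Finset.induction_on with
  | empty =>
    have h := GI2r_int hp 1
    simpa using h
  | insert a s ha ih =>
    rw [Finset.prod_insert ha, Finset.prod_insert ha]
    exact GI2r_mul hp (h a (Finset.mem_insert_self a s))
      (ih fun i hi => h i (Finset.mem_insert_of_mem hi))

private theorem GI2r_zero {p : ℕ} (hp : p.Prime) {r : ZMod p} (h : GI2r p 0 r) : r = 0 := by
  have h1 := GI2r_int hp 0
  rw [Int.cast_zero, Int.cast_zero] at h1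
  rw [← h.2, h1.2]

private theorem GI2_scale (u v : ℚ) (huv : u ≠ 0 ∨ v ≠ 0) :
    ∃ (s : ℚ) (a b : ℤ), s * u = a ∧ s * v = b ∧ IsCoprime a b := by
  by_cases hv : v = 0
  · have hu : u ≠ 0 := by
      rcases huv with h | h
      · exact h
      · exact absurd hv h
    refine ⟨u⁻¹, 1, 0, ?_, ?_, isCoprime_one_left⟩
    · rw [inv_mul_cancel₀ hu, Int.cast_one]
    · rw [hv, mul_zero, Int.cast_zero]
  · refine ⟨((u / v).den : ℚ) / v, (u / v).num, ((u / v).den : ℤ), ?_, ?_, ?_⟩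
    · have h1 : ((u / v).den : ℚ) * (u / v) = ((u / v).num : ℚ) := Rat.den_mul_eq_num _
      rw [← h1]
      ring
    · rw [div_mul_cancel₀ _ hv, Int.cast_natCast]
    · have h1 := (u / v).reduced
      rw [Int.isCoprime_iff_gcd_eq_one]
      exact h1

theorem adm_RG2 {g n : ℕ} {A B : Fin g → ℤ} {d : Fin g → ℕ} (hd : ∀ l, 1 ≤ d l) (a : Fin (n + 1) × Tn d → ℤ)
    (P : (l : Fin g) → Pt ℚ (A l) (B l)) (u v : ℚ) (huv : u ≠ 0 ∨ v ≠ 0)
    (h : ∑ i : Fin (n + 1), (∑ k, (a (i, k) : ℚ) * tv (fun l => op (P l)) k) * u ^ (i : ℕ) * v ^ (n - (i : ℕ)) = 0) :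
    AdmG (RG2 n d) a P := by
  intro p hp _ _
  have : Fact p.Prime := ⟨hp⟩
  obtain ⟨s, x, y, hx, hy, hxy⟩ := GI2_scale u v huv
  choose lam mu hl hm hk using fun l => bv_red hp (hd l) (P l)
  refine ⟨(x : ZMod p), (y : ZMod p), ?_, ?_⟩
  · by_contra hcon
    rw [not_or, not_not, not_not, ZMod.intCast_zmod_eq_zero_iff_dvd,
      ZMod.intCast_zmod_eq_zero_iff_dvd] at hcon
    have h1 : IsUnit (p : ℤ) := hxy.isUnit_of_dvd' hcon.1 hcon.2
    rw [Int.isUnit_iff_natAbs_eq, Int.natAbs_natCast] at h1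
    exact hp.one_lt.ne' h1
  · have h0 : ∑ i : Fin (n + 1), (∑ k, (a (i, k) : ℚ) * tv (fun l => op (P l)) k) *
        (x : ℚ) ^ (i : ℕ) * (y : ℚ) ^ (n - (i : ℕ)) = 0 := by
      have h1 : ∑ i : Fin (n + 1), (∑ k, (a (i, k) : ℚ) * tv (fun l => op (P l)) k) *
          (s * u) ^ (i : ℕ) * (s * v) ^ (n - (i : ℕ)) = s ^ n *
          ∑ i : Fin (n + 1), (∑ k, (a (i, k) : ℚ) * tv (fun l => op (P l)) k) *
            u ^ (i : ℕ) * v ^ (n - (i : ℕ)) := by
        rw [Finset.mul_sum]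
        refine Finset.sum_congr rfl fun i _ => ?_
        have hi : (i : ℕ) ≤ n := Nat.lt_succ_iff.1 i.2
        have e : s ^ n = s ^ (i : ℕ) * s ^ (n - (i : ℕ)) := by rw [← pow_add, Nat.add_sub_cancel' hi]
        rw [mul_pow, mul_pow, e]
        ring
      rw [hx, hy, h, mul_zero] at h1
      exact h1
    have h1 : GI2r p ((∏ l, lam l) * ∑ i : Fin (n + 1),
          (∑ k, (a (i, k) : ℚ) * tv (fun l => op (P l)) k) * (x : ℚ) ^ (i : ℕ) * (y : ℚ) ^ (n - (i : ℕ)))
        ((∏ l, mu l) * ∑ i : Fin (n + 1),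
          (∑ k, ((a (i, k) : ℤ) : ZMod p) * tv (fun l => rd p (P l)) k) * (x : ZMod p) ^ (i : ℕ) *
            (y : ZMod p) ^ (n - (i : ℕ))) := by
      rw [Finset.mul_sum, Finset.mul_sum]
      refine GI2r_sum hp _ _ _ fun i _ => ?_
      rw [← mul_assoc, ← mul_assoc, ← mul_assoc, ← mul_assoc, Finset.mul_sum, Finset.mul_sum]
      refine GI2r_mul hp (GI2r_mul hp (GI2r_sum hp _ _ _ fun k _ => ?_)
        (GI2r_pow hp (GI2r_int hp x) _)) (GI2r_pow hp (GI2r_int hp y) _)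
      rw [mul_left_comm, mul_left_comm (∏ l, mu l)]
      unfold tv
      rw [← Finset.prod_mul_distrib, ← Finset.prod_mul_distrib]
      exact GI2r_mul hp (GI2r_int hp _) (GI2r_prod hp _ _ _ fun l _ => hk l (k l))
    rw [h0, mul_zero] at h1
    rcases mul_eq_zero.1 (GI2r_zero hp h1) with h3 | h3
    · exact absurd h3 (Finset.prod_ne_zero_iff.2 fun l _ => hm l)
    · exact h3

theorem adm_RG3 {g J : ℕ} {A B : Fin g → ℤ} {d : Fin J → Fin g → ℕ} (hd : ∀ j l, 1 ≤ d j l) (a : CA d → ℤ)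
    (P : (l : Fin g) → Pt ℚ (A l) (B l)) (h : ∀ j, SA (fun t => ((a t : ℤ) : ℚ)) (fun l => op (P l)) j = 0) :
    AdmG (RG3 d) a P := by
  intro p hp _ _ j
  exact locA hp hd a P j (h j)

end MWS
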