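import Pool.Agent.Lib.MP_10e784_agBG.GDefs
import Pool.Agent.Lib.MP_10e784_agV.Res

/-!
# LEAF GP: translation between the elementary statements and the points of the group

PROOFS.  `GP_pt`: choose for every `l` as in `Res_pt` (`agV/Res`; `dsc = 4 A³ + 27 B²`); the two directions as there.  `bas_eq`.
`GP_card`: `Fintype.card (Bs d) = 2 d` for `d ≥ 1`, `Fintype.card_pi`, `Fintype.card_prod`, `Fintype.card_sigma` (as `Res_card`).
`GP_le`: both sets are finite (subsets of boxes, `Finite.of_injective` as `S14_fin` of `agBS/S14`), injection.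
-/

set_option autoImplicit false

namespace MWS

open Finset

theorem GP_pt {g : ℕ} {A B : Fin g → ℤ} (hd : ∀ l, dsc (A l) (B l) ≠ 0) (Φ : (Fin g → Option (ℚ × ℚ)) → Prop) :
    (∃ P, (∀ l, IsPt (A l) (B l) (P l)) ∧ Φ P) ↔ ∃ P : (l : Fin g) → Pt ℚ (A l) (B l), Φ (fun l => op (P l)) := by
  constructor
  · rintro ⟨P, h1, h2⟩
    have h3 : ∀ l, ∃ Q : Pt ℚ (A l) (B l), op Q = P l := fun l =>
      (Res_pt (hd l) (fun Q => Q = P l)).1 ⟨P l, h1 l, rfl⟩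
    choose Q hQ using h3
    refine ⟨Q, ?_⟩
    have e : (fun l => op (Q l)) = P := funext hQ
    rw [e]
    exact h2
  · rintro ⟨Q, h2⟩
    refine ⟨fun l => op (Q l), fun l => ?_, h2⟩
    obtain ⟨P, h3, h4⟩ := (Res_pt (hd l) (fun P => P = op (Q l))).2 ⟨Q l, rfl⟩
    rw [h4] at h3
    exact h3

theorem GP_tv {g : ℕ} (d : Fin g → ℕ) (P : Fin g → Option (ℚ × ℚ)) (k : Tn d) :
    ∏ l, bas (d l) (P l) (k l) = tv P k := by
  unfold tv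
  exact prod_congr rfl fun l _ => bas_eq (d l) (P l) (k l)

theorem GP_card {g : ℕ} (d : Fin g → ℕ) (hd : ∀ l, 1 ≤ d l) : Fintype.card (Tn d) = ∏ l, 2 * d l := by
  rw [Fintype.card_pi]
  refine prod_congr rfl fun l _ => ?_
  rw [Fintype.card_sum, Fintype.card_fin, Fintype.card_fin]
  have := hd l
  omega

theorem GP_cardA {g J : ℕ} (d : Fin J → Fin g → ℕ) (hd : ∀ j l, 1 ≤ d j l) :
    Fintype.card (CA d) = ∑ j, ∏ l, 2 * d j l := by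
  rw [Fintype.card_sigma]
  exact sum_congr rfl fun j _ => GP_card (d j) (hd j)

/-- comparison of the elementary counting problem with `ZG` -/
theorem GP_le {ι : Type} [Fintype ι] [DecidableEq ι] {g : ℕ} (H : ℕ)
    (R : (p : ℕ) → (Fin g → Option (ZMod p × ZMod p)) → Set (ι → ZMod p)) (Q : (Fin g → ℤ × ℤ) × (ι → ℤ) → Prop)
    (h : ∀ z, (∀ l, dsc (z.1 l).1 (z.1 l).2 ≠ 0) → Q z → ∃ P : (l : Fin g) → Pt ℚ (z.1 l).1 (z.1 l).2,
      AdmG (A := fun l => (z.1 l).1) (B := fun l => (z.1 l).2) R z.2 P) :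
    (Nat.card {z : (Fin g → ℤ × ℤ) × (ι → ℤ) // (∀ l, 4 * (z.1 l).1 ^ 3 + 27 * (z.1 l).2 ^ 2 ≠ 0 ∧
      |(z.1 l).1| ≤ (H : ℤ) ^ 2 ∧ |(z.1 l).2| ≤ (H : ℤ) ^ 3) ∧ (∀ k, |z.2 k| ≤ (H : ℤ)) ∧ Q z} : ℝ) ≤
    (Nat.card (ZG H R) : ℝ) := by
  have hfin : Finite (ZG H R) := by
    let f : ZG H R → (Fin g → (Icc (-(H : ℤ) ^ 2) ((H : ℤ) ^ 2) : Finset ℤ) ×
        (Icc (-(H : ℤ) ^ 3) ((H : ℤ) ^ 3) : Finset ℤ)) × (ι → (Icc (-(H : ℤ)) H : Finset ℤ)) :=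
      fun z => (fun l => (⟨(z.1.1 l).1, mem_Icc.2 (abs_le.1 (z.2.2.1 l))⟩,
        ⟨(z.1.1 l).2, mem_Icc.2 (abs_le.1 (z.2.2.2.1 l))⟩),
        fun i => ⟨z.1.2 i, mem_Icc.2 (abs_le.1 (z.2.2.2.2.1 i))⟩)
    refine Finite.of_injective f fun a b hab => ?_
    have h1 : a.1.1 = b.1.1 := by
      funext l
      have e1 : (a.1.1 l).1 = (b.1.1 l).1 := congrArg (fun w => ((w.1 l).1 : ℤ)) hab
      have e2 : (a.1.1 l).2 = (b.1.1 l).2 := congrArg (fun w => ((w.1 l).2 : ℤ)) hab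
      exact Prod.ext e1 e2
    have h3 : a.1.2 = b.1.2 := by
      funext i
      exact congrArg (fun w => (w.2 i : ℤ)) hab
    exact Subtype.ext (Prod.ext h1 h3)
  have h1 : Nat.card {z : (Fin g → ℤ × ℤ) × (ι → ℤ) // (∀ l, 4 * (z.1 l).1 ^ 3 + 27 * (z.1 l).2 ^ 2 ≠ 0 ∧
      |(z.1 l).1| ≤ (H : ℤ) ^ 2 ∧ |(z.1 l).2| ≤ (H : ℤ) ^ 3) ∧ (∀ k, |z.2 k| ≤ (H : ℤ)) ∧ Q z} ≤
      Nat.card (ZG H R) := by
    refine Nat.card_le_card_of_injective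
      (fun z => ⟨z.1, fun l => (z.2.1 l).1, fun l => (z.2.1 l).2.1, fun l => (z.2.1 l).2.2, z.2.2.1,
        h z.1 (fun l => (z.2.1 l).1) z.2.2.2⟩) ?_
    intro a b hab
    have h2 : a.1 = b.1 := congrArg (fun w => w.1) hab
    exact Subtype.ext h2
  exact_mod_cast h1

end MWS
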