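import Pool.Agent.Lib.MP_10e784_agBG.GG
import Pool.Agent.Lib.MP_10e784_agBG.GH
import Pool.Agent.Lib.MP_10e784_agBG.GI1
import Pool.Agent.Lib.MP_10e784_agBG.GI2
import Pool.Agent.Lib.MP_10e784_agBG.GP

/-!
# GJ: the three families over all products of `g` elliptic curves (assembly)
-/

set_option autoImplicit false

namespace MWS

open Finset

/-- **All ramified double covers, all hypersurfaces `∑ F_i u^i v^(n-i) = 0` and all the intersections of `J ≥ 1`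
hypersurfaces on all products of `g` elliptic curves over `ℚ`**, over the blocks R and P. -/
theorem all_G (hFR : FactR) (hFQ : FactQ) : ∃ c : ℝ, 0 < c ∧
    (∀ (g : ℕ) (d : Fin g → ℕ), (∀ l, 1 ≤ d l) → ∃ C : ℝ, ∀ H : ℕ, 1 ≤ H →
      (Nat.card {a : (Fin g → ℤ × ℤ) × (((l : Fin g) → Fin (d l + 1) ⊕ Fin (d l - 1)) → ℤ) //
        (∀ l, 4 * (a.1 l).1 ^ 3 + 27 * (a.1 l).2 ^ 2 ≠ 0 ∧ |(a.1 l).1| ≤ (H : ℤ) ^ 2 ∧ |(a.1 l).2| ≤ (H : ℤ) ^ 3) ∧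
        (∀ k, |a.2 k| ≤ (H : ℤ)) ∧ ∃ P : Fin g → Option (ℚ × ℚ), (∀ l, IsPt (a.1 l).1 (a.1 l).2 (P l)) ∧
          IsSquare (∑ k : (l : Fin g) → Fin (d l + 1) ⊕ Fin (d l - 1),
            (a.2 k : ℚ) * ∏ l, bas (d l) (P l) (k l))} : ℝ) ≤
        C * (H : ℝ) ^ ((∏ l, 2 * d l) + 5 * g) * Real.exp (-(Real.log H) ^ c)) ∧
    (∀ (g n : ℕ) (d : Fin g → ℕ), 2 ≤ n → (∀ l, 1 ≤ d l) → ∃ C : ℝ, ∀ H : ℕ, 1 ≤ H →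
      (Nat.card {a : (Fin g → ℤ × ℤ) × (Fin (n + 1) × ((l : Fin g) → Fin (d l + 1) ⊕ Fin (d l - 1)) → ℤ) //
        (∀ l, 4 * (a.1 l).1 ^ 3 + 27 * (a.1 l).2 ^ 2 ≠ 0 ∧ |(a.1 l).1| ≤ (H : ℤ) ^ 2 ∧ |(a.1 l).2| ≤ (H : ℤ) ^ 3) ∧
        (∀ k, |a.2 k| ≤ (H : ℤ)) ∧
        ∃ (P : Fin g → Option (ℚ × ℚ)) (u v : ℚ), (∀ l, IsPt (a.1 l).1 (a.1 l).2 (P l)) ∧ (u ≠ 0 ∨ v ≠ 0) ∧
          ∑ i : Fin (n + 1), (∑ k : (l : Fin g) → Fin (d l + 1) ⊕ Fin (d l - 1),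
            (a.2 (i, k) : ℚ) * ∏ l, bas (d l) (P l) (k l)) * u ^ (i : ℕ) * v ^ (n - (i : ℕ)) = 0} : ℝ) ≤
        C * (H : ℝ) ^ ((n + 1) * (∏ l, 2 * d l) + 5 * g) * Real.exp (-(Real.log H) ^ c)) ∧
    (∀ (g J : ℕ) (d : Fin J → Fin g → ℕ), 1 ≤ J → (∀ j l, 1 ≤ d j l) → ∃ C : ℝ, ∀ H : ℕ, 1 ≤ H →
      (Nat.card {a : (Fin g → ℤ × ℤ) ×
          ((Σ j : Fin J, ((l : Fin g) → Fin (d j l + 1) ⊕ Fin (d j l - 1))) → ℤ) //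
        (∀ l, 4 * (a.1 l).1 ^ 3 + 27 * (a.1 l).2 ^ 2 ≠ 0 ∧ |(a.1 l).1| ≤ (H : ℤ) ^ 2 ∧ |(a.1 l).2| ≤ (H : ℤ) ^ 3) ∧
        (∀ k, |a.2 k| ≤ (H : ℤ)) ∧ ∃ P : Fin g → Option (ℚ × ℚ), (∀ l, IsPt (a.1 l).1 (a.1 l).2 (P l)) ∧
          ∀ j, ∑ k : (l : Fin g) → Fin (d j l + 1) ⊕ Fin (d j l - 1),
            (a.2 ⟨j, k⟩ : ℚ) * ∏ l, bas (d j l) (P l) (k l) = 0} : ℝ) ≤
        C * (H : ℝ) ^ ((∑ j, ∏ l, 2 * d j l) + 5 * g) * Real.exp (-(Real.log H) ^ c)) := by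
  obtain ⟨c₀, hc₀, hcore⟩ := coreG hFR hFQ
  refine ⟨c₀, hc₀, fun g d hd => ?_, fun g n d hn hd => ?_, fun g J d hJ hd => ?_⟩
  · obtain ⟨C, hC⟩ := hcore g (∏ l, 2 * d l) (1 / 3) (by norm_num) (by norm_num)
    refine ⟨C, fun H hH => ?_⟩
    refine le_trans ?_ (hC H hH (Tn d) (GP_card d hd) (RG1 d) (dens_RG1 d))
    refine GP_le (ι := Tn d) H (RG1 d) (fun a => ∃ P : Fin g → Option (ℚ × ℚ), (∀ l, IsPt (a.1 l).1 (a.1 l).2 (P l)) ∧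
      IsSquare (∑ k : Tn d, (a.2 k : ℚ) * ∏ l, bas (d l) (P l) (k l))) ?_
    intro z hz h
    obtain ⟨P, hP⟩ := (GP_pt hz (fun P => IsSquare (∑ k : Tn d, (z.2 k : ℚ) * ∏ l, bas (d l) (P l) (k l)))).1 h
    simp only [GP_tv] at hP
    exact ⟨P, adm_RG1 hd z.2 P hP⟩
  · obtain ⟨C, hC⟩ := hcore g ((n + 1) * ∏ l, 2 * d l) (1 / 6) (by norm_num) (by norm_num)
    refine ⟨C, fun H hH => ?_⟩
    have hcard : Fintype.card (Fin (n + 1) × Tn d) = (n + 1) * ∏ l, 2 * d l := by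
      rw [Fintype.card_prod, Fintype.card_fin, GP_card d hd]
    refine le_trans ?_ (hC H hH (Fin (n + 1) × Tn d) hcard (RG2 n d) (dens_RG2 hn d))
    refine GP_le (ι := Fin (n + 1) × Tn d) H (RG2 n d)
      (fun a => ∃ (P : Fin g → Option (ℚ × ℚ)) (u v : ℚ), (∀ l, IsPt (a.1 l).1 (a.1 l).2 (P l)) ∧ (u ≠ 0 ∨ v ≠ 0) ∧
        ∑ i : Fin (n + 1), (∑ k : Tn d, (a.2 (i, k) : ℚ) * ∏ l, bas (d l) (P l) (k l)) * u ^ (i : ℕ) *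
          v ^ (n - (i : ℕ)) = 0) ?_
    rintro z hz ⟨P, u, v, h1, h2, h3⟩
    obtain ⟨Q, hQ⟩ := (GP_pt hz (fun P => ∑ i : Fin (n + 1), (∑ k : Tn d, (z.2 (i, k) : ℚ) *
      ∏ l, bas (d l) (P l) (k l)) * u ^ (i : ℕ) * v ^ (n - (i : ℕ)) = 0)).1 ⟨P, h1, h3⟩
    simp only [GP_tv] at hQ
    exact ⟨Q, adm_RG2 hd z.2 Q u v h2 hQ⟩
  · obtain ⟨C, hC⟩ := hcore g (∑ j, ∏ l, 2 * d j l) (1 / 2) (by norm_num) (by norm_num)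
    refine ⟨C, fun H hH => ?_⟩
    refine le_trans ?_ (hC H hH (CA d) (GP_cardA d hd) (RG3 d) (dens_RG3 hJ d))
    refine GP_le (ι := CA d) H (RG3 d) (fun a => ∃ P : Fin g → Option (ℚ × ℚ), (∀ l, IsPt (a.1 l).1 (a.1 l).2 (P l)) ∧
      ∀ j, ∑ k : (l : Fin g) → Bs (d j l), (a.2 ⟨j, k⟩ : ℚ) * ∏ l, bas (d j l) (P l) (k l) = 0) ?_
    intro z hz h
    obtain ⟨P, hP⟩ := (GP_pt hz (fun P => ∀ j, ∑ k : (l : Fin g) → Bs (d j l), (z.2 ⟨j, k⟩ : ℚ) *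
      ∏ l, bas (d j l) (P l) (k l) = 0)).1 h
    refine ⟨P, adm_RG3 hd z.2 P fun j => ?_⟩
    have h1 := hP j
    simp only [bas_eq] at h1
    exact h1

end MWS
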