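import Pool.Agent.Lib.MP_10e784_agBG.GDefs
import Pool.Agent.Lib.MP_10e784_agV.VM

/-!
# LEAF GK: fixed products of curves of one type: the sieve with a power saving

PROOF.  Copy of `sieve` of `agV/VM` with the product group: `s` from `classes ((l : Fin g) → Pt ℚ (α l) (β l))` (`Module.Finite.pi`, `mw (hG l).1`) as in `main_A` of `agV/V2`; the reduction of `P l` depends only on the class
(`rd_cls` for every `l`), so the union over the classes `r i`, `i : Fin (L ^ s)`, of the sets of `momentN` for `R p (fun l => rd p (r i l))`.  `s`, `M` are fixed here, so `s ≤ (log H) ^ η` and `log M ≤ (log H) ^ (1 + η)` hold for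
`H ≥ H₁`; for smaller `H` the trivial bound `(2 H + 1) ^ N ≤ C H ^ (N - δ)` with `C = (3 H₁) ^ N H₁` (take `δ ≤ 1`, as in `main_B` of `agV/V3`).
-/

set_option autoImplicit false

namespace MWS

open Finset

private theorem GK_triv {ι : Type} [Fintype ι] [DecidableEq ι] (H : ℕ) (Q : (ι → ℤ) → Prop) :
    (Nat.card {c : ι → ℤ // (∀ i, |c i| ≤ (H : ℤ)) ∧ Q c} : ℝ) ≤ (2 * (H : ℝ) + 1) ^ Fintype.card ι := by
  classical
  rw [VM_card]
  have h1 : (Fintype.piFinset (fun _ : ι => Icc (-(H : ℤ)) (H : ℤ))).card = (2 * H + 1) ^ Fintype.card ι := by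
    rw [Fintype.card_piFinset, prod_const, Int.card_Icc, card_univ]
    congr 1
    omega
  have h2 := card_filter_le (Fintype.piFinset (fun _ : ι => Icc (-(H : ℤ)) (H : ℤ))) Q
  rw [h1] at h2
  exact_mod_cast h2

theorem sieveG : ∃ δ : ℝ, 0 < δ ∧ ∀ (g : ℕ) (D : ℤ) (α β : Fin g → ℤ) (M : ℕ), ¬ IsSquare D →
    (∀ l, Gd (α l) (β l) D M) → M ≠ 0 → ∀ (N : ℕ) (κ : ℝ), 0 < κ → κ ≤ 1 → ∃ C : ℝ, ∀ H : ℕ, 1 ≤ H →
      ∀ (ι : Type) [Fintype ι] [DecidableEq ι], Fintype.card ι = N →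
      ∀ R : (p : ℕ) → (Fin g → Option (ZMod p × ZMod p)) → Set (ι → ZMod p),
        (∀ p : ℕ, p.Prime → ¬ p ∣ M → ∀ z, (Nat.card (R p z) : ℝ) ≤ (1 - κ) * (p : ℝ) ^ N) →
        (Nat.card {c : ι → ℤ // (∀ i, |c i| ≤ (H : ℤ)) ∧ ∃ P : (l : Fin g) → Pt ℚ (α l) (β l),
          ∀ p : ℕ, p.Prime → ¬ p ∣ M → (fun i => ((c i : ℤ) : ZMod p)) ∈ R p (fun l => rd p (P l))} : ℝ) ≤
          C * (H : ℝ) ^ ((N : ℝ) - δ) := by
  classical
  obtain ⟨A, hA1, hA2, hsm⟩ := smooth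
  obtain ⟨δ, η, hδ, hη, hpar⟩ := params2 A hA1 hA2
  refine ⟨δ, hδ, fun g D α β M hD hG hM N κ hκ hκ1 => ?_⟩
  obtain ⟨K, hK, x0, hx0, hS⟩ := hsm D hD
  obtain ⟨H0, hH0⟩ := hpar K (max x0 (K * 2)) κ N hK hκ hκ1
  have hmw : ∀ l, Module.Finite ℤ (Pt ℚ (α l) (β l)) := fun l => mw (hG l).1
  obtain ⟨s, hcl⟩ := classes ((l : Fin g) → Pt ℚ (α l) (β l))
  have hlog : Filter.Tendsto (fun H : ℕ => Real.log (H : ℝ)) Filter.atTop Filter.atTop :=
    Real.tendsto_log_atTop.comp tendsto_natCast_atTop_atTop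
  have hev1 : ∀ᶠ H : ℕ in Filter.atTop, (s : ℝ) ≤ (Real.log (H : ℝ)) ^ η :=
    ((tendsto_rpow_atTop hη).comp hlog).eventually_ge_atTop _
  have hev2 : ∀ᶠ H : ℕ in Filter.atTop, Real.log (M : ℝ) ≤ (Real.log (H : ℝ)) ^ (1 + η) :=
    ((tendsto_rpow_atTop (by linarith : 0 < 1 + η)).comp hlog).eventually_ge_atTop _
  obtain ⟨H1, hH1⟩ := Filter.eventually_atTop.1 (hev1.and hev2)
  obtain ⟨H2, hH2⟩ : ∃ H2 : ℕ, H2 = max H0 H1 := ⟨_, rfl⟩
  refine ⟨max 1 (3 ^ N * (H2 : ℝ) ^ δ), fun H hH ι _ _ hι R hR => ?_⟩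
  have hHr : (1 : ℝ) ≤ H := by exact_mod_cast hH
  have hHpos : (0 : ℝ) < H := by linarith
  have hHnn : (0 : ℝ) ≤ (H : ℝ) ^ ((N : ℝ) - δ) := (Real.rpow_pos_of_pos hHpos _).le
  have hsplit : (H : ℝ) ^ N = (H : ℝ) ^ ((N : ℝ) - δ) * (H : ℝ) ^ δ := by
    rw [← Real.rpow_add hHpos, sub_add_cancel, Real.rpow_natCast]
  rcases lt_or_ge H H2 with hlt | hge
  · have h1 := GK_triv (ι := ι) H (fun c => ∃ P : (l : Fin g) → Pt ℚ (α l) (β l),
          ∀ p : ℕ, p.Prime → ¬ p ∣ M → (fun i => ((c i : ℤ) : ZMod p)) ∈ R p (fun l => rd p (P l)))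
    rw [hι] at h1
    have hlt' : (H : ℝ) ≤ (H2 : ℝ) := by exact_mod_cast hlt.le
    refine h1.trans ?_
    calc (2 * (H : ℝ) + 1) ^ N ≤ (3 * (H : ℝ)) ^ N := pow_le_pow_left₀ (by positivity) (by linarith) _
      _ = 3 ^ N * (H : ℝ) ^ δ * (H : ℝ) ^ ((N : ℝ) - δ) := by
          rw [mul_pow, hsplit]
          ring
      _ ≤ 3 ^ N * (H2 : ℝ) ^ δ * (H : ℝ) ^ ((N : ℝ) - δ) := by
          refine mul_le_mul_of_nonneg_right ?_ hHnn
          exact mul_le_mul_of_nonneg_left (Real.rpow_le_rpow hHpos.le hlt' hδ.le) (by positivity)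
      _ ≤ max 1 (3 ^ N * (H2 : ℝ) ^ δ) * (H : ℝ) ^ ((N : ℝ) - δ) :=
          mul_le_mul_of_nonneg_right (le_max_right _ _) hHnn
  · have hge0 : H0 ≤ H := (le_max_left _ _).trans (hH2.symm.le.trans hge)
    have hge1 : H1 ≤ H := (le_max_right _ _).trans (hH2.symm.le.trans hge)
    obtain ⟨hs, hMl⟩ := hH1 H hge1
    obtain ⟨x, k, L, hx, hXk, hL, hdvd, hch⟩ := hH0 H hge0
    have hx0' : x0 ≤ x := (le_max_left _ _).trans hx
    have hx2 : (2 : ℝ) ≤ x := hx0.trans hx0'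
    have hKpos : (0 : ℝ) < K := by linarith
    have hxK : (2 : ℝ) ≤ x / K := by
      rw [le_div_iff₀ hKpos]
      have := (le_max_right _ _).trans hx
      linarith
    have hmem : ∀ p ∈ SS D A K x, p.Prime ∧ x / K < (p : ℝ) ∧ p ≤ ⌊x⌋₊ ∧
        ¬ IsSquare ((D : ℤ) : ZMod p) ∧ ∀ q : ℕ, q.Prime → q ∣ p + 1 → (q : ℝ) ^ A ≤ x := by
      intro p hp
      rw [SS, mem_filter, mem_Ioc] at hp
      exact ⟨hp.2.1, Nat.lt_of_floor_lt hp.1.1, hp.1.2, hp.2.2.1, hp.2.2.2⟩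
    set T := (SS D A K x).filter (fun p => p ∣ M) with hT
    set S := (SS D A K x).filter (fun p => ¬ p ∣ M) with hSdef
    have hTlog : (T.card : ℝ) * Real.log (x / K) ≤ (Real.log H) ^ (1 + η) := by
      refine (VM_div T ?_ hM (by linarith) ?_ ?_).trans hMl
      · intro p hp
        exact (hmem p (mem_filter.1 hp).1).1
      · intro p hp
        exact (hmem p (mem_filter.1 hp).1).2.1.le
      · intro p hp
        exact (mem_filter.1 hp).2
    have hcard : T.card + S.card = (SS D A K x).card := card_filter_add_card_filter_not _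
    obtain ⟨hn1, hn2⟩ := hch s (SS D A K x).card T.card hs (hS x hx0') hTlog
    have hcard' : (SS D A K x).card - T.card = S.card := by omega
    rw [hcard'] at hn1 hn2
    have hpL : ∀ p ∈ S, p + 1 ∣ L := by
      intro p hp
      obtain ⟨h1, h2, h3, h4, h5⟩ := hmem p (mem_filter.1 hp).1
      refine hdvd (p + 1) (by omega) ?_ h5
      have h7 : (p : ℝ) ≤ x := (Nat.cast_le.2 h3).trans (Nat.floor_le (by linarith))
      push_cast
      linarith
    obtain ⟨r, hr⟩ := hcl L hL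
    have hunion := VM_union (ι := ι) (H := H) (N := L ^ s)
      (fun c => ∃ P : (l : Fin g) → Pt ℚ (α l) (β l), ∀ p : ℕ, p.Prime → ¬ p ∣ M →
        (fun i => ((c i : ℤ) : ZMod p)) ∈ R p (fun l => rd p (P l)))
      (fun i c => ∀ p ∈ S, (fun i => ((c i : ℤ) : ZMod p)) ∈ R p (fun l => rd p (r i l)))
      (by
        rintro c - ⟨P, hP⟩
        obtain ⟨i, Q, hi⟩ := hr P
        refine ⟨i, fun p hp => ?_⟩
        obtain ⟨h1, h2, h3, h4, h5⟩ := hmem p (mem_filter.1 hp).1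
        have h6 := hP p h1 (mem_filter.1 hp).2
        have h7 : (fun l => rd p (P l)) = fun l => rd p (r i l) := by
          funext l
          have h8 := congrFun hi l
          rw [h8]
          exact rd_cls h1 (hG l) (mem_filter.1 hp).2 h4 (hpL p hp) _ _
        rwa [h7] at h6)
      (κ ^ (2 * k) * (S.card.choose k : ℝ)) (((N : ℝ) + 1) * (2 * (H : ℝ) + 1) ^ N) (by positivity)
      (fun i => by
        have h := momentN (ι := ι) S ⌊x⌋₊ k H κ hκ hκ1 (fun p => R p (fun l => rd p (r i l)))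
          (fun p hp => ⟨(hmem p (mem_filter.1 hp).1).1, (hmem p (mem_filter.1 hp).1).2.2.1⟩)
          (fun p hp => by
            rw [hι]
            exact hR p (hmem p (mem_filter.1 hp).1).1 (mem_filter.1 hp).2 _) hXk hH
        rw [hι, mul_assoc] at h
        exact h)
    have hLpos : (0 : ℝ) < (L : ℝ) ^ s := by
      have : (0 : ℝ) < L := by exact_mod_cast hL
      positivity
    set W := (Nat.card {c : ι → ℤ // (∀ i, |c i| ≤ (H : ℤ)) ∧ ∃ P : (l : Fin g) → Pt ℚ (α l) (β l),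
      ∀ p : ℕ, p.Prime → ¬ p ∣ M → (fun i => ((c i : ℤ) : ZMod p)) ∈ R p (fun l => rd p (P l))} : ℝ) with hW
    have hW0 : 0 ≤ W := Nat.cast_nonneg _
    have hpos2 : (0 : ℝ) < (H : ℝ) ^ δ := Real.rpow_pos_of_pos hHpos _
    have hE : (0 : ℝ) < (L : ℝ) ^ s * (((N : ℝ) + 1) * 3 ^ N) := by positivity
    have h3 : ((L : ℝ) ^ s * (((N : ℝ) + 1) * 3 ^ N)) * (W * (H : ℝ) ^ δ) ≤
        ((L : ℝ) ^ s * (((N : ℝ) + 1) * 3 ^ N)) * (H : ℝ) ^ N := by
      calc ((L : ℝ) ^ s * (((N : ℝ) + 1) * 3 ^ N)) * (W * (H : ℝ) ^ δ)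
          = W * ((L : ℝ) ^ s * (((N : ℝ) + 1) * 3 ^ N) * (H : ℝ) ^ δ) := by ring
        _ ≤ W * (κ ^ (2 * k) * (S.card.choose k : ℝ)) := mul_le_mul_of_nonneg_left hn2 hW0
        _ ≤ ((L ^ s : ℕ) : ℝ) * (((N : ℝ) + 1) * (2 * (H : ℝ) + 1) ^ N) := hunion
        _ ≤ (L : ℝ) ^ s * (((N : ℝ) + 1) * (3 * (H : ℝ)) ^ N) := by
            push_cast
            refine mul_le_mul_of_nonneg_left ?_ hLpos.le
            refine mul_le_mul_of_nonneg_left ?_ (by positivity)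
            exact pow_le_pow_left₀ (by positivity) (by linarith) _
        _ = ((L : ℝ) ^ s * (((N : ℝ) + 1) * 3 ^ N)) * (H : ℝ) ^ N := by rw [mul_pow]; ring
    have h4 := le_of_mul_le_mul_left h3 hE
    rw [hsplit] at h4
    have h5 := le_of_mul_le_mul_right h4 hpos2
    refine h5.trans ?_
    exact le_mul_of_one_le_left hHnn (le_max_left _ _)

end MWS
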