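import Pool.Agent.Lib.MP_10e784_agBG.GK
import Pool.Agent.Lib.MP_10e784_agBG.GH
import Pool.Agent.Lib.MP_10e784_agBG.GI1
import Pool.Agent.Lib.MP_10e784_agBG.GI2
import Pool.Agent.Lib.MP_10e784_agBG.GP

/-!
# GL: fixed products of curves of one type, with a power saving (assembly)
-/

set_option autoImplicit false

namespace MWS

open Finset

private theorem GL_fin {ι : Type} [Fintype ι] [DecidableEq ι] (H : ℕ) (Q : (ι → ℤ) → Prop) :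
    Finite {c : ι → ℤ // (∀ i, |c i| ≤ (H : ℤ)) ∧ Q c} := by
  let f : {c : ι → ℤ // (∀ i, |c i| ≤ (H : ℤ)) ∧ Q c} → (ι → (Icc (-(H : ℤ)) H : Finset ℤ)) :=
    fun c i => ⟨c.1 i, mem_Icc.2 (abs_le.1 (c.2.1 i))⟩
  have hf : Function.Injective f := by
    intro a b hab
    refine Subtype.ext (funext fun i => ?_)
    exact congrArg (fun w => (w i : ℤ)) hab
  exact Finite.of_injective f hf

private theorem GL_gd {g : ℕ} {D : ℤ} {α β : Fin g → ℤ} (hD : ¬ IsSquare D) (hT : ∀ l, IsType D (α l) (β l)) :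
    ∃ M : ℕ, M ≠ 0 ∧ (∀ l, Gd (α l) (β l) D M) ∧ ∀ p : ℕ, p.Prime → ¬ p ∣ M → 11 ≤ p := by
  choose M hM using fun l => Res_gd hD (hT l)
  have h0 : ∏ l, M l ≠ 0 := Finset.prod_ne_zero_iff.2 fun l _ => (hM l).2.1
  have h1 : (∏ l, M l) * 210 ≠ 0 := Nat.mul_ne_zero h0 (by norm_num)
  refine ⟨(∏ l, M l) * 210, h1, fun l => ⟨(hM l).1, h1, fun p hp hpM => ?_⟩, fun p hp hpM => ?_⟩
  · refine (hM l).2.2 p hp fun h => hpM ?_
    exact (h.trans (Finset.dvd_prod_of_mem M (Finset.mem_univ l))).mul_right 210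
  · by_contra hlt
    have h2 : ¬ p ∣ 210 := fun h => hpM (h.mul_left _)
    have h3 : p < 11 := by omega
    interval_cases p <;> revert h2 hp <;> decide

/-- **Fixed products of elliptic curves of the same type**: ramified double covers and hypersurfaces
`∑ F_i u^i v^(n-i) = 0` of the product times the projective line. -/
theorem fixed_G : ∃ δ : ℝ, 0 < δ ∧
    (∀ (D : ℤ) (g : ℕ) (α β : Fin g → ℤ), ¬ IsSquare D → (∀ l, IsType D (α l) (β l)) →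
      ∀ d : Fin g → ℕ, (∀ l, 1 ≤ d l) → ∃ C : ℝ, ∀ H : ℕ, 1 ≤ H →
        (Nat.card {a : ((l : Fin g) → Fin (d l + 1) ⊕ Fin (d l - 1)) → ℤ // (∀ k, |a k| ≤ (H : ℤ)) ∧
          ∃ P : Fin g → Option (ℚ × ℚ), (∀ l, IsPt (α l) (β l) (P l)) ∧
            IsSquare (∑ k : (l : Fin g) → Fin (d l + 1) ⊕ Fin (d l - 1),
              (a k : ℚ) * ∏ l, bas (d l) (P l) (k l))} : ℝ) ≤
          C * (H : ℝ) ^ ((∏ l, (2 * (d l : ℝ))) - δ)) ∧
    (∀ (D : ℤ) (g : ℕ) (α β : Fin g → ℤ), ¬ IsSquare D → (∀ l, IsType D (α l) (β l)) →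
      ∀ (n : ℕ) (d : Fin g → ℕ), 2 ≤ n → (∀ l, 1 ≤ d l) → ∃ C : ℝ, ∀ H : ℕ, 1 ≤ H →
        (Nat.card {a : Fin (n + 1) × ((l : Fin g) → Fin (d l + 1) ⊕ Fin (d l - 1)) → ℤ //
          (∀ k, |a k| ≤ (H : ℤ)) ∧
          ∃ (P : Fin g → Option (ℚ × ℚ)) (u v : ℚ), (∀ l, IsPt (α l) (β l) (P l)) ∧ (u ≠ 0 ∨ v ≠ 0) ∧
            ∑ i : Fin (n + 1), (∑ k : (l : Fin g) → Fin (d l + 1) ⊕ Fin (d l - 1),
              (a (i, k) : ℚ) * ∏ l, bas (d l) (P l) (k l)) * u ^ (i : ℕ) * v ^ (n - (i : ℕ)) = 0} : ℝ) ≤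
          C * (H : ℝ) ^ (((n : ℝ) + 1) * (∏ l, (2 * (d l : ℝ))) - δ)) := by
  obtain ⟨δ, hδ, hs⟩ := sieveG
  refine ⟨δ, hδ, fun D g α β hD hT d hd => ?_, fun D g α β hD hT n d hn hd => ?_⟩
  · obtain ⟨M, hM0, hM1, hM2⟩ := GL_gd hD hT
    obtain ⟨C, hC⟩ := hs g D α β M hD hM1 hM0 (∏ l, 2 * d l) (1 / 3) (by norm_num) (by norm_num)
    refine ⟨C, fun H hH => ?_⟩
    have hcard := GP_card d hd
    have h1 := hC H hH (Tn d) hcard (RG1 d) (fun p hp hpM z => by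
      have h2 := dens_RG1 d p hp (hM2 p hp hpM) z
      rwa [hcard] at h2)
    have e : (((∏ l, 2 * d l : ℕ) : ℝ)) = ∏ l, (2 * (d l : ℝ)) := by push_cast; rfl
    rw [e] at h1
    refine le_trans ?_ h1
    have := GL_fin (ι := Tn d) H (fun c => ∃ P : (l : Fin g) → Pt ℚ (α l) (β l),
      ∀ p : ℕ, p.Prime → ¬ p ∣ M → (fun i => ((c i : ℤ) : ZMod p)) ∈ RG1 d p (fun l => rd p (P l)))
    exact_mod_cast Nat.card_le_card_of_injective
      (fun a : {a : Tn d → ℤ // (∀ k, |a k| ≤ (H : ℤ)) ∧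
          ∃ P : Fin g → Option (ℚ × ℚ), (∀ l, IsPt (α l) (β l) (P l)) ∧
            IsSquare (∑ k : Tn d, (a k : ℚ) * ∏ l, bas (d l) (P l) (k l))} =>
        (⟨a.1, a.2.1, by
          obtain ⟨P, hP⟩ := (GP_pt (fun l => (hM1 l).1) (fun P => IsSquare (∑ k : Tn d, (a.1 k : ℚ) *
            ∏ l, bas (d l) (P l) (k l)))).1 a.2.2
          simp only [GP_tv] at hP
          exact ⟨P, fun p hp hpM => adm_RG1 hd a.1 P hP p hp (hM2 p hp hpM)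
            fun l => ((hM1 l).2.2 p hp hpM).2.1⟩⟩ :
          {c : Tn d → ℤ // (∀ i, |c i| ≤ (H : ℤ)) ∧ ∃ P : (l : Fin g) → Pt ℚ (α l) (β l),
            ∀ p : ℕ, p.Prime → ¬ p ∣ M → (fun i => ((c i : ℤ) : ZMod p)) ∈ RG1 d p (fun l => rd p (P l))}))
      (fun a b hab => Subtype.ext (congrArg (fun w => w.1) hab))
  · obtain ⟨M, hM0, hM1, hM2⟩ := GL_gd hD hT
    obtain ⟨C, hC⟩ := hs g D α β M hD hM1 hM0 ((n + 1) * ∏ l, 2 * d l) (1 / 6) (by norm_num) (by norm_num)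
    refine ⟨C, fun H hH => ?_⟩
    have hcard : Fintype.card (Fin (n + 1) × Tn d) = (n + 1) * ∏ l, 2 * d l := by
      rw [Fintype.card_prod, Fintype.card_fin, GP_card d hd]
    have h1 := hC H hH (Fin (n + 1) × Tn d) hcard (RG2 n d) (fun p hp hpM z => by
      have h2 := dens_RG2 hn d p hp (hM2 p hp hpM) z
      rwa [hcard] at h2)
    have e : ((((n + 1) * ∏ l, 2 * d l : ℕ) : ℝ)) = ((n : ℝ) + 1) * ∏ l, (2 * (d l : ℝ)) := by push_cast; rfl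
    rw [e] at h1
    refine le_trans ?_ h1
    have := GL_fin (ι := Fin (n + 1) × Tn d) H (fun c => ∃ P : (l : Fin g) → Pt ℚ (α l) (β l),
      ∀ p : ℕ, p.Prime → ¬ p ∣ M → (fun i => ((c i : ℤ) : ZMod p)) ∈ RG2 n d p (fun l => rd p (P l)))
    exact_mod_cast Nat.card_le_card_of_injective
      (fun a : {a : Fin (n + 1) × Tn d → ℤ // (∀ k, |a k| ≤ (H : ℤ)) ∧
          ∃ (P : Fin g → Option (ℚ × ℚ)) (u v : ℚ), (∀ l, IsPt (α l) (β l) (P l)) ∧ (u ≠ 0 ∨ v ≠ 0) ∧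
            ∑ i : Fin (n + 1), (∑ k : Tn d, (a (i, k) : ℚ) * ∏ l, bas (d l) (P l) (k l)) * u ^ (i : ℕ) *
              v ^ (n - (i : ℕ)) = 0} =>
        (⟨a.1, a.2.1, by
          obtain ⟨P, u, v, h3, h4, h5⟩ := a.2.2
          obtain ⟨Q, hQ⟩ := (GP_pt (fun l => (hM1 l).1) (fun P => ∑ i : Fin (n + 1), (∑ k : Tn d, (a.1 (i, k) : ℚ) *
            ∏ l, bas (d l) (P l) (k l)) * u ^ (i : ℕ) * v ^ (n - (i : ℕ)) = 0)).1 ⟨P, h3, h5⟩
          simp only [GP_tv] at hQ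
          exact ⟨Q, fun p hp hpM => adm_RG2 hd a.1 Q u v h4 hQ p hp (hM2 p hp hpM)
            fun l => ((hM1 l).2.2 p hp hpM).2.1⟩⟩ :
          {c : Fin (n + 1) × Tn d → ℤ // (∀ i, |c i| ≤ (H : ℤ)) ∧ ∃ P : (l : Fin g) → Pt ℚ (α l) (β l),
            ∀ p : ℕ, p.Prime → ¬ p ∣ M → (fun i => ((c i : ℤ) : ZMod p)) ∈ RG2 n d p (fun l => rd p (P l))}))
      (fun a b hab => Subtype.ext (congrArg (fun w => w.1) hab))

end MWS
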